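import Pool.Agent.H934.PA.Disc2

/-!
# The discriminant in the presence of an isotropic eigenvector
-/

open Matrix Polynomial Module

namespace Pool.Agent.H934.PA

variable {K : Type*} [Field K] [CharZero K] {U : Type*} [AddCommGroup U] [Module K U]
  [FiniteDimensional K U]

/-- **An isotropic eigenvector and the discriminant**: if the multiplicity of the eigenvalue is `s + 2`
and there are `s` orthogonal anisotropic eigenvectors and an isotropic eigenvector orthogonal to them,
then the discriminant is that of the orthogonal sum with a hyperbolic plane. -/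
theorem disc_isotropic (B : LinearMap.BilinForm K U) (hB : ∀ x y, B x y = B y x)
    (hnd : ∀ x, (∀ y, B x y = 0) → x = 0) (F : Module.End K U)
    {lam : K} (hlam : lam ≠ 0) (hF : ∀ x y, B (F x) (F y) = lam ^ 2 * B x y) {s d : ℕ}
    (x : Fin s → U) (hx : ∀ i, F (x i) = lam • x i) (horth : ∀ i j, i ≠ j → B (x i) (x j) = 0)
    (hne : ∀ i, B (x i) (x i) ≠ 0) {y : U} (hy : F y = lam • y) (hy0 : y ≠ 0)
    (hyy : B y y = 0) (hxy : ∀ i, B (x i) y = 0) {g : K[X]}
    (hchar : F.charpoly = (X - C lam) ^ (s + 2) * g)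
    (h1 : g.eval lam ≠ 0) (h2 : g.eval (-lam) ≠ 0) (b : Basis (Fin d) K U)
    {G : Matrix (Fin d) (Fin d) K} (hG : ∀ i j, G i j = B (b i) (b j)) (hdet : G.det ≠ 0) :
    (∃ t, Even t ∧ d = s + 2 + t) ∧
      IsSquare (-(G.det * (∏ i, B (x i) (x i)) * (g.eval lam * g.eval (-lam)))) := by
  classical
  set E := F.maxGenEigenspace lam with hEdef
  have hE : ∀ z ∈ E, F z ∈ E := by
    intro z hz
    exact Module.End.mapsTo_maxGenEigenspace_of_comm (Commute.refl F) lam hz
  have hmemE : ∀ z, F z = lam • z → z ∈ E := fun z hz =>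
    Module.End.eigenspace_le_maxGenEigenspace (Module.End.mem_eigenspace_iff.2 hz)
  have hmult : F.charpoly.rootMultiplicity lam = s + 2 := by
    rw [hchar, rootMultiplicity_mul (by rw [← hchar]; exact (LinearMap.charpoly_monic F).ne_zero),
      rootMultiplicity_X_sub_C_pow, rootMultiplicity_eq_zero h1, add_zero]
  have hfin : finrank K E = s + 2 := by
    rw [hEdef, LinearMap.finrank_maxGenEigenspace_eq, hmult]
  obtain ⟨w0, hw0, hyw0⟩ := exists_not_orth B hnd F hlam hF hy hy0 hchar h1
  -- make `w0` orthogonal to the `x i`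
  let w : U := w0 - ∑ i, (B (x i) w0 / B (x i) (x i)) • x i
  have hw : w ∈ E := Submodule.sub_mem _ hw0
    (Submodule.sum_mem _ fun i _ => Submodule.smul_mem _ _ (hmemE _ (hx i)))
  have hyx : ∀ i, B y (x i) = 0 := fun i => by rw [hB, hxy]
  have hyw : B y w ≠ 0 := by
    have : B y w = B y w0 := by
      simp only [w, map_sub, map_sum, map_smul, hyx, smul_zero, Finset.sum_const_zero, sub_zero]
    rw [this]; exact hyw0
  have hxw : ∀ i, B (x i) w = 0 := by
    intro i
    simp only [w, map_sub, map_sum, map_smul]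
    rw [Finset.sum_eq_single i]
    · rw [smul_eq_mul, div_mul_cancel₀ _ (hne i), sub_self]
    · intro k _ hk
      rw [horth i k (Ne.symm hk), smul_zero]
    · intro hi; exact absurd (Finset.mem_univ i) hi
  have hwx : ∀ i, B w (x i) = 0 := fun i => by rw [hB, hxw]
  -- the family
  let v : Fin s ⊕ Fin 2 → E := fun o => o.elim (fun i => ⟨x i, hmemE _ (hx i)⟩)
    (fun k => if k = 0 then ⟨y, hmemE _ hy⟩ else ⟨w, hw⟩)
  let BE : LinearMap.BilinForm K E := B.restrict E
  have hv1 : ∀ i, ((v (Sum.inl i) : E) : U) = x i := fun i => rfl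
  have hv2 : ((v (Sum.inr 0) : E) : U) = y := rfl
  have hv3 : ((v (Sum.inr 1) : E) : U) = w := rfl
  let H : Matrix (Fin 2) (Fin 2) K := !![0, B y w; B y w, B w w]
  have hgram : (Matrix.of fun o o' => B (v o) (v o')) =
      Matrix.fromBlocks (diagonal fun i => B (x i) (x i)) 0 0 H := by
    ext o o'
    rcases o with i | k <;> rcases o' with i' | k'
    · rw [fromBlocks_apply₁₁]
      change B (x i) (x i') = _
      by_cases hii : i = i'
      · subst hii; rw [diagonal_apply_eq]
      · rw [diagonal_apply_ne _ hii, horth i i' hii]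
    · rw [fromBlocks_apply₁₂]
      fin_cases k'
      · exact hxy i
      · exact hxw i
    · rw [fromBlocks_apply₂₁]
      fin_cases k
      · exact hyx i'
      · exact hwx i'
    · rw [fromBlocks_apply₂₂]
      fin_cases k <;> fin_cases k'
      · exact hyy
      · rfl
      · exact hB w y
      · rfl
  have hHdet : H.det = -(B y w * B y w) := by
    rw [Matrix.det_fin_two_of]; ring
  have hgdet : (Matrix.of fun o o' => B (v o) (v o')).det =
      (∏ i, B (x i) (x i)) * -(B y w * B y w) := by
    rw [hgram, det_fromBlocks_zero₂₁, det_diagonal, hHdet]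
  have hprod : ∏ i, B (x i) (x i) ≠ 0 := Finset.prod_ne_zero_iff.2 fun i _ => hne i
  have hgne : (Matrix.of fun o o' => B (v o) (v o')).det ≠ 0 := by
    rw [hgdet]
    exact mul_ne_zero hprod (neg_ne_zero.2 (mul_ne_zero hyw hyw))
  have hli : LinearIndependent K v := by
    rw [Fintype.linearIndependent_iff]
    intro t ht
    have h3 : Matrix.vecMul t (Matrix.of fun o o' => B (v o) (v o')) = 0 := by
      funext o'
      have h4 := congrArg (fun z : E => B (z : U) (v o')) ht
      simp only [Submodule.coe_zero, map_zero, LinearMap.zero_apply] at h4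
      have h5 : ((∑ o, t o • v o : E) : U) = ∑ o, t o • (v o : U) := by
        rw [Submodule.coe_sum]
        rfl
      rw [h5, LinearMap.map_sum₂] at h4
      rw [Pi.zero_apply, ← h4, Matrix.vecMul, dotProduct]
      apply Finset.sum_congr rfl
      intro o _
      rw [map_smul, LinearMap.smul_apply, smul_eq_mul]
      rfl
    have h6 : t = 0 := Matrix.eq_zero_of_vecMul_eq_zero hgne h3
    intro o
    rw [h6]
    rfl
  have hcard : Fintype.card (Fin s ⊕ Fin 2) = finrank K E := by
    rw [Fintype.card_sum, Fintype.card_fin, Fintype.card_fin, hfin]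
  let e0 : Basis (Fin s ⊕ Fin 2) K E := basisOfLinearIndependentOfCardEqFinrank hli hcard
  have he0 : ∀ o, e0 o = v o := fun o => by
    change (basisOfLinearIndependentOfCardEqFinrank hli hcard) o = v o
    rw [coe_basisOfLinearIndependentOfCardEqFinrank]
  let e : Basis (Fin (s + 2)) K E := e0.reindex finSumFinEquiv
  have he : (Matrix.of fun i j => B (e i) (e j)) =
      (Matrix.of fun o o' => B (v o) (v o')).submatrix finSumFinEquiv.symm finSumFinEquiv.symm := by
    ext i j
    rw [submatrix_apply, Matrix.of_apply, Matrix.of_apply]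
    simp only [e, Basis.reindex_apply, he0]
  have hedet : (Matrix.of fun i j => B (e i) (e j)).det =
      (∏ i, B (x i) (x i)) * -(B y w * B y w) := by
    rw [he, det_submatrix_equiv_self, hgdet]
  have hcE : (F.restrict hE).charpoly = (X - C lam) ^ (s + 2) := by
    rw [charpoly_maxGen F lam hE]
    congr 1
  obtain ⟨hd, hsq⟩ := disc_sub B hB F hlam hF E hE e (by
      rw [hedet]
      exact mul_ne_zero hprod (neg_ne_zero.2 (mul_ne_zero hyw hyw))) hcE hchar h1 h2 b hG hdet
  refine ⟨hd, ?_⟩
  rw [hedet] at hsq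
  obtain ⟨c, hc⟩ := hsq
  refine ⟨c / B y w, ?_⟩
  field_simp
  linear_combination hc

end Pool.Agent.H934.PA
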