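import Pool.Agent.H934.PA.Num

/-!
# Primes for which a given negative rational number is not a square
-/

namespace Pool.Agent.H934.PA

/-- For every rational number `N` there is `M > 0` such that for all primes `ℓ ≡ -1 mod 4 M` the number
`- N` is not a square in `ℚ_ℓ`, if `N > 0`. -/
theorem exists_modulus (N : ℚ) : ∃ M : ℕ, 0 < M ∧ ∀ ℓ : ℕ, [Fact ℓ.Prime] →
    ℓ % (4 * M) = 4 * M - 1 → 0 < N → ¬ IsSquare (((-N : ℚ) : ℚ_[ℓ])) := by
  by_cases hN : 0 < N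
  · obtain ⟨M, hM, hMd⟩ : ∃ M : ℕ, 0 < M ∧ N * (N.den : ℚ) ^ 2 = (M : ℚ) := by
      refine ⟨N.num.natAbs * N.den, Nat.mul_pos (Int.natAbs_pos.2 (Rat.num_ne_zero.2 hN.ne'))
        N.den_pos, ?_⟩
      have h1 : N * N.den = N.num := Rat.mul_den_eq_num N
      have h2 : (N.num : ℚ) = (N.num.natAbs : ℚ) := by
        have h3 : (N.num.natAbs : ℤ) = N.num := Int.natAbs_of_nonneg (Rat.num_pos.2 hN).le
        rw [← Int.cast_natCast (R := ℚ) N.num.natAbs, h3]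
      rw [pow_two, ← mul_assoc, h1, h2]
      push_cast
      ring
    refine ⟨M, hM, fun ℓ hfact hmod _ hsq => ?_⟩
    apply not_isSquare_zmod hM hmod
    apply isSquare_zmod_of_padic
    obtain ⟨y, hy⟩ := hsq
    refine ⟨y * N.den, ?_⟩
    have h3 : ((N * (N.den : ℚ) ^ 2 : ℚ) : ℚ_[ℓ]) = (((M : ℚ) : ℚ) : ℚ_[ℓ]) := by rw [hMd]
    push_cast at h3 hy ⊢
    rw [← h3]
    linear_combination (N.den : ℚ_[ℓ]) ^ 2 * hy
  · exact ⟨1, one_pos, fun ℓ _ _ h => absurd h hN⟩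

/-- The congruence `ℓ ≡ -1` modulo a divisor. -/
lemma mod_of_dvd {M M' ℓ : ℕ} (hM : 0 < M) (hM' : 0 < M') (h : M ∣ M')
    (hℓ : ℓ % (4 * M') = 4 * M' - 1) : ℓ % (4 * M) = 4 * M - 1 := by
  obtain ⟨c, rfl⟩ := h
  have hc : 0 < c := Nat.pos_of_mul_pos_left hM' |> fun _ => by
    rcases Nat.eq_zero_or_pos c with rfl | h
    · simp at hM'
    · exact h
  have h1 : ℓ % (4 * (M * c)) % (4 * M) = ℓ % (4 * M) := by
    rw [← mul_assoc]
    exact Nat.mod_mul_right_mod ℓ (4 * M) c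
  rw [← h1, hℓ]
  have h2 : 4 * (M * c) - 1 = 4 * M - 1 + 4 * M * (c - 1) := by
    obtain ⟨c', rfl⟩ : ∃ c', c = c' + 1 := ⟨c - 1, by omega⟩
    rw [Nat.add_sub_cancel, ← mul_assoc, mul_add, mul_one]
    omega
  rw [h2, Nat.add_mul_mod_self_left]
  exact Nat.mod_eq_of_lt (by omega)

/-- Finitely many moduli. -/
theorem exists_modulus_finite {ι : Type*} [Fintype ι] (N : ι → ℚ) : ∃ M : ℕ, 0 < M ∧
    ∀ ℓ : ℕ, [Fact ℓ.Prime] → ℓ % (4 * M) = 4 * M - 1 → ∀ i, 0 < N i →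
      ¬ IsSquare (((-N i : ℚ) : ℚ_[ℓ])) := by
  classical
  choose M hM h using fun i => exists_modulus (N i)
  have hpos : 0 < ∏ i, M i := Finset.prod_pos fun i _ => hM i
  refine ⟨∏ i, M i, hpos, fun ℓ _ hmod i hNi => ?_⟩
  exact h i ℓ (mod_of_dvd (hM i) hpos (Finset.dvd_prod_of_mem M (Finset.mem_univ i)) hmod) hNi

end Pool.Agent.H934.PA
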