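import Pool.Agent.H934.PA.Main
import Pool.Agent.H934.PA.Hyp
import Pool.Agent.H934.PA.Num2
import Pool.Agent.H914R2.DDefs

/-!
# Homological and numerical equivalence for a positive density of prime numbers `ℓ`
-/

open CategoryTheory AlgebraicGeometry Module
open scoped Polynomial

universe u v

namespace Pool.Agent.H934.PA

open Pool.Agent.H914 Pool.Agent.H914.VarClass Pool.Agent.H914.VarClass.Obj
  Pool.Agent.H914.WeilCohomology

variable {k : Type u} [Field k] {𝒱 : VarClass k} {ops : CycleOps 𝒱}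

/-- The cycle `z` of codimension `j` is numerically trivial. -/
def NumTriv (ops : CycleOps 𝒱) (X : 𝒱.Obj) (j : ℕ) (z : X.Cycles) : Prop :=
  ∀ y, X.IsCyc (X.dim - j) y → X.V.degCycle (ops.mul z y) = 0

section one

variable {W : WeilCohomology.{u, v} ops} {X : 𝒱.Obj} {D : X.Cycles} {j : ℕ}

/-- Homologically trivial cycles are numerically trivial. -/
lemma numTriv_of_cl (W : WeilCohomology.{u, v} ops) (hj : j ≤ X.dim) {z : X.Cycles}
    (hz : X.IsCyc j z) (h : W.cl X z = 0) : NumTriv ops X j z := by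
  intro y hy
  have h1 := tr_cl_mul (W := W) hz hy (by omega)
  rw [h, zero_mul, map_zero] at h1
  exact_mod_cast h1.symm

lemma NumTriv.pairing (hD : X.IsCyc 1 D) (hj : 2 * j ≤ X.dim) {z w : X.Cycles}
    (h : NumTriv ops X j z) (hw : X.IsCyc j w) : pairing ops X D j z w = 0 := by
  apply h
  have := isCyc_divPow (ops := ops) hD hw (X.dim - 2 * j)
  rwa [show X.dim - 2 * j + j = X.dim - j by omega] at this

/-- Correspondences preserve numerical triviality. -/
lemma act_numTriv (W : WeilCohomology.{u, v} ops) {c : (X.prod X).Cycles}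
    (hc : (X.prod X).IsCyc X.dim c) (hj : j ≤ X.dim) {z : X.Cycles} (hz : X.IsCyc j z)
    (h : NumTriv ops X j z) : NumTriv ops X j (act ops c z) := by
  have h0 : X.IsCyc j (0 : X.Cycles) := SmVar.IsCyc.zero _ _
  have hn0 : ∀ {w : X.Cycles}, X.IsCyc j w → W.cl X w = 0 → NumTriv ops X j w :=
    fun hw hw0 => numTriv_of_cl W hj hw hw0
  have h1 : NumEq ops X j z 0 := by
    intro y hy
    rw [h y hy, hn0 h0 (map_zero _) y hy]
  have h2 := act_numEq W hc hj hz h0 h1
  intro y hy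
  rw [h2 y hy]
  refine hn0 (act_isCyc hc h0) ?_ y hy
  rw [act_cl, map_zero, map_zero]

/-- Numerically trivial primitive cycles: reduction to the pieces. -/
lemma homEqNum_of_prim (hD : X.IsCyc 1 D) (hA : LefschetzA W X D)
    (hP : ∀ j, 2 * j ≤ X.dim → ∀ z, X.IsCyc j z → W.cl X z ∈ prim W X D j → NumTriv ops X j z →
      W.cl X z = 0) : HomEqNum W X := by
  -- the lower half
  have hlow : ∀ j, 2 * j ≤ X.dim → ∀ z, X.IsCyc j z → NumTriv ops X j z → W.cl X z = 0 := by
    intro j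
    induction j with
    | zero =>
      intro hj z hz hn
      refine hP 0 hj z hz ⟨W.cl_mem hz, ?_⟩ hn
      change W.cl X D ^ (X.dim - 2 * 0 + 1) * W.cl X z = 0
      rw [← cl_divPow]
      have h1 := W.cl_mem (isCyc_divPow (ops := ops) hD hz (X.dim - 2 * 0 + 1))
      rw [W.gr_eq_bot X _ (by omega)] at h1
      exact (Submodule.mem_bot _).1 h1
    | succ j ih =>
      intro hj z hz hn
      have h1 := isCyc_divPow (ops := ops) hD hz (X.dim - 2 * (j + 1) + 1)
      rw [show X.dim - 2 * (j + 1) + 1 + (j + 1) = X.dim - j by omega] at h1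
      obtain ⟨z1, hz1, hz1'⟩ := hA j (by omega) _ h1
      rw [cl_divPow, cl_divPow] at hz1'
      have hzero : NumTriv ops X j z1 := by
        intro y hy
        obtain ⟨y', hy', hyy⟩ := hA j (by omega) y hy
        have h3 : (X.V.degCycle (ops.mul z1 y) : W.K) =
            (X.V.degCycle (ops.mul z (divPow ops D (X.dim - 2 * (j + 1) + 1) y')) : W.K) := by
          have h2 := isCyc_divPow (ops := ops) hD hy' (X.dim - 2 * (j + 1) + 1)
          rw [show X.dim - 2 * (j + 1) + 1 + j = X.dim - (j + 1) by omega] at h2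
          rw [← tr_cl_mul hz1 hy (by omega), ← tr_cl_mul hz h2 (by omega), ← hyy, cl_divPow,
            cl_divPow, ← mul_assoc, ← xi_pow_comm hD, hz1', xi_pow_comm hD, mul_assoc]
        have h2 := isCyc_divPow (ops := ops) hD hy' (X.dim - 2 * (j + 1) + 1)
        rw [show X.dim - 2 * (j + 1) + 1 + j = X.dim - (j + 1) by omega] at h2
        rw [hn _ h2, Rat.cast_zero] at h3
        exact_mod_cast h3
      have hcl1 := ih (by omega) z1 hz1 hzero
      rw [hcl1, mul_zero] at hz1'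
      refine hP (j + 1) hj z hz ⟨W.cl_mem hz, ?_⟩ hn
      exact hz1'.symm
  intro j hj z hz hn
  by_cases h2 : 2 * j ≤ X.dim
  · exact hlow j h2 z hz hn
  · have h1 := hz
    rw [show j = X.dim - (X.dim - j) by omega] at h1
    obtain ⟨z', hz', hzz⟩ := hA (X.dim - j) (by omega) z h1
    rw [cl_divPow] at hzz
    have hzero : NumTriv ops X (X.dim - j) z' := by
      intro y hy
      obtain ⟨y', hy', hyy⟩ := hA (X.dim - j) (by omega) y hy
      have h3 : (X.V.degCycle (ops.mul z' y) : W.K) = (X.V.degCycle (ops.mul z y') : W.K) := by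
        rw [← tr_cl_mul hz' hy (by omega), ← tr_cl_mul hz hy' (by omega), ← hyy, ← hzz,
          cl_divPow, ← mul_assoc, ← xi_pow_comm hD]
      rw [hn y' hy', Rat.cast_zero] at h3
      exact_mod_cast h3
    rw [← hzz, hlow _ (by omega) z' hz' hzero, mul_zero]

end one

section disc

variable {W : WeilCohomology.{u, v} ops} {X : 𝒱.Obj} {D : X.Cycles} {f : X ⟶ X} {q j : ℕ}
  {c : (X.prod X).Cycles} {d r s : ℕ} {G : Matrix (Fin d) (Fin d) ℚ} {g : ℚ[X]}

/-- **The discriminant of a piece with a numerically trivial algebraic class.** -/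
theorem piece_disc_isotropic (hD : X.IsCyc 1 D) (hq : 0 < q) (hf : IsFrobenius W X D f q)
    (hj : 2 * j ≤ X.dim) (hg : IsWeilPoly ((q : ℚ) ^ j) g) (hgm : g.Monic)
    (hc : IsProj W X D f j c) (hG : HasGram W X D j c G) (hGdet : G.det ≠ 0)
    (hch : HasCharpoly W X f (piece W X D j c)
      ((Polynomial.X - Polynomial.C ((q : ℚ) ^ j)) ^ (s + 2) * g)) (z : Fin s → X.Cycles)
    (hz : ∀ i, X.IsCyc j (z i)) (hzp : ∀ i, W.cl X (z i) ∈ piece W X D j c)
    (hne : ∀ i, pairing ops X D j (z i) (z i) ≠ 0)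
    (horth : ∀ i i', i ≠ i' → pairing ops X D j (z i) (z i') = 0) {y : X.Cycles}
    (hy : X.IsCyc j y) (hyp : W.cl X y ∈ piece W X D j c) (hy0 : W.cl X y ≠ 0)
    (hyn : NumTriv ops X j y) :
    (∃ t, Even t ∧ d = s + 2 + t) ∧
      IsSquare (((-(G.det * (∏ i, pairing ops X D j (z i) (z i)) *
        (g.eval ((q : ℚ) ^ j) * g.eval (-((q : ℚ) ^ j)))) : ℚ)) : W.K) := by
  obtain ⟨F, B, b, hF, hB, hBs, hnd, hiso, hchar, hg1, hg2, hGb, hdet⟩ :=
    piece_setup hq hf hj hc hG hGdet hch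
  have hlam : ((((q : ℚ) ^ j : ℚ)) : W.K) ≠ 0 := by
    have : ((q : ℚ) ^ j) ≠ 0 := pow_ne_zero _ (by exact_mod_cast hq.ne')
    exact_mod_cast this
  let x : Fin s → piece W X D j c := fun i => ⟨W.cl X (z i), hzp i⟩
  let y' : piece W X D j c := ⟨W.cl X y, hyp⟩
  have hx : ∀ i, F (x i) = ((((q : ℚ) ^ j : ℚ)) : W.K) • x i := fun i => by
    apply Subtype.ext
    rw [hF]
    exact eigen_piece hq hf hg hch (hz i) (hzp i)
  have hy' : F y' = ((((q : ℚ) ^ j : ℚ)) : W.K) • y' := by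
    apply Subtype.ext
    rw [hF]
    exact eigen_piece hq hf hg hch hy hyp
  have hBz : ∀ i i', B (x i) (x i') = ((pairing ops X D j (z i) (z i') : ℚ) : W.K) := fun i i' => by
    rw [hB, pairing_cast hD hj (hz i) (hz i')]
  have hyz : ∀ {w : X.Cycles}, X.IsCyc j w → hform W X D j (W.cl X y) (W.cl X w) = 0 := by
    intro w hw
    rw [← pairing_cast hD hj hy hw, hyn.pairing hD hj hw, Rat.cast_zero]
  have := disc_isotropic B hBs hnd F hlam hiso x hx (fun i i' hne => by
    rw [hBz, horth i i' hne, Rat.cast_zero]) (fun i => by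
      rw [hBz]
      exact_mod_cast hne i) hy' (fun h => hy0 (congrArg Subtype.val h))
      (by rw [hB]; exact hyz hy) (fun i => by rw [hBs, hB]; exact hyz (hz i)) hchar (by
      rw [hg1]
      exact_mod_cast (hg.pos hgm _).ne') (by
      rw [hg2]
      exact_mod_cast (hg.pos hgm _).ne') b hGb (by
      rw [hdet]
      exact_mod_cast hGdet)
  refine ⟨this.1, ?_⟩
  have h2 := this.2
  rw [hdet, hg1, hg2] at h2
  have h3 : ∏ i, B (x i) (x i) = ((∏ i, pairing ops X D j (z i) (z i) : ℚ) : W.K) := by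
    rw [Rat.cast_prod]
    exact Finset.prod_congr rfl fun i _ => hBz i i
  rw [h3] at h2
  push_cast at h2 ⊢
  exact h2

end disc

section final

variable {p : ℕ} {S : LadicSystem.{u, v} ops p} {X : 𝒱.Obj} {D : X.Cycles} {f : X ⟶ X} {q : ℕ}

/-- **A piece with all but two of the classes**: for a positive density of `ℓ`, the algebraic classes on
the piece which are numerically trivial are zero. -/
theorem piece_num (hD : X.IsCyc 1 D) (hq : 0 < q)
    (hX : ∀ l : Nat.Primes, (l : ℕ) ≠ p → IsFrobenius (S.W l) X D f q ∧ LefschetzA (S.W l) X D)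
    {j : ℕ} (hj : 2 * j ≤ X.dim) (Sp : Splitting S X D f q j) (l₀ : Nat.Primes)
    (hl₀ : (l₀ : ℕ) ≠ p) (a : Fin Sp.num)
    (hP : HasPositive (S.W l₀) X D j (Sp.corr a) (Sp.mult a - 1)) :
    ∃ N : ℚ, ∀ l : Nat.Primes, (l : ℕ) ≠ p →
      (0 < N → ¬ IsSquare (((-N : ℚ) : (S.W l).K))) → ∀ y, X.IsCyc j y →
      (S.W l).cl X y ∈ piece (S.W l) X D j (Sp.corr a) → NumTriv ops X j y →
      (S.W l).cl X y = 0 := by
  classical
  obtain ⟨z, hz, hzp, horth, hpos⟩ := hP
  have hsign := (Sp.signs a).sign (Sp.symm a)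
  have hGdet : (Sp.gram a).det ≠ 0 := fun h0 => by
    rw [h0, mul_zero] at hsign
    exact lt_irrefl _ hsign
  have hg1 := (Sp.weil a).pos (Sp.monic a) ((q : ℚ) ^ j)
  have hg2 := (Sp.weil a).pos (Sp.monic a) (-((q : ℚ) ^ j))
  have hne : ∀ i, pairing ops X D j (z i) (z i) ≠ 0 := fun i h0 => by
    have := hpos i
    rw [h0, mul_zero] at this
    exact lt_irrefl _ this
  refine ⟨(Sp.gram a).det * (∏ i, pairing ops X D j (z i) (z i)) *
        ((Sp.rest a).eval ((q : ℚ) ^ j) * (Sp.rest a).eval (-((q : ℚ) ^ j))), ?_⟩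
  intro l hl hN y hy hyp hyn
  by_contra hy0
  have hr := mult_pos hq hX Sp l hl a hy hyp hy0
  rcases Nat.lt_or_ge (Sp.mult a) 2 with hlt | hge
  · -- multiplicity one
    have h1 : Sp.mult a = 1 := by omega
    have hch := Sp.hasCharpoly l hl a
    rw [h1] at hch
    have h2 := pairing_ne hD hq (hX l hl).1 hj (Sp.weil a) (Sp.monic a) (Sp.isProj l hl a)
      (Sp.hasGram l hl a) hGdet hch (fun _ => y) (fun _ => hy) (fun _ => hyp)
      (by
        rw [linearIndependent_unique_iff]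
        exact hy0) (fun i i' hii => absurd (Subsingleton.elim i i') hii) 0
    exact h2 (hyn.pairing hD hj hy)
  · obtain ⟨s, hs⟩ : ∃ s, Sp.mult a = s + 2 := ⟨Sp.mult a - 2, by omega⟩
    have hs' : Sp.mult a - 1 - 1 = s := by omega
    choose z' hz' hz'p hzz using fun i =>
      exists_piece (W' := S.W l) hD hj (hX l hl).2 (Sp.isCyc a) (Sp.isProj l₀ hl₀ a) (hz i) (hzp i)
    have hpp : ∀ i i', pairing ops X D j (z' i) (z' i') = pairing ops X D j (z i) (z i') :=
      fun i i' => (pairing_congr (S.W l) hD hj (hz i) (hz' i) (hz i') (hz' i') (hzz i) (hzz i')).symm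
    have hch := Sp.hasCharpoly l hl a
    rw [show Sp.mult a = Sp.mult a - 1 - 1 + 2 by omega] at hch
    obtain ⟨⟨t, ht, hdt⟩, h1⟩ := piece_disc_isotropic hD hq (hX l hl).1 hj (Sp.weil a)
      (Sp.monic a) (Sp.isProj l hl a) (Sp.hasGram l hl a) hGdet hch z' hz' hz'p
      (fun i => by rw [hpp]; exact hne i) (fun i i' hii => by rw [hpp]; exact horth i i' hii)
      hy hyp hy0 hyn
    simp only [hpp] at h1
    refine hN ?_ h1
    apply mul_pos _ (mul_pos hg1 hg2)
    have h3 : 0 < ∏ i, (-1 : ℚ) ^ j * pairing ops X D j (z i) (z i) :=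
      Finset.prod_pos fun i _ => hpos i
    rw [Finset.prod_mul_distrib, Finset.prod_const, Finset.card_univ, Fintype.card_fin] at h3
    have h4 : (-1 : ℚ) ^ (j * Sp.rank a) = ((-1 : ℚ) ^ j) ^ (Sp.mult a - 1 - 1) := by
      rw [hdt, mul_add, pow_add, (ht.mul_left j).neg_one_pow, mul_one, mul_add, pow_add,
        ((even_two).mul_left j).neg_one_pow, mul_one, pow_mul]
    rw [← h4] at h3
    have h5 := mul_pos hsign h3
    have h6 : (-1 : ℚ) ^ (j * Sp.rank a) * (Sp.gram a).det *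
        ((-1 : ℚ) ^ (j * Sp.rank a) * ∏ i, pairing ops X D j (z i) (z i)) =
        ((-1 : ℚ) ^ (j * Sp.rank a)) ^ 2 * ((Sp.gram a).det *
          ∏ i, pairing ops X D j (z i) (z i)) := by ring
    rw [h6] at h5
    exact (mul_pos_iff_of_pos_left (by positivity)).1 h5

/-- **Homological and numerical equivalence coincide for a positive density of `ℓ`**, if on each piece all
but at most two of the Frobenius eigenvalues of Tate type are explained by algebraic classes with the
right signs. -/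
theorem exists_modulus_homEqNum (hD : X.IsCyc 1 D) (hq : 0 < q)
    (hX : ∀ l : Nat.Primes, (l : ℕ) ≠ p → IsFrobenius (S.W l) X D f q ∧ LefschetzA (S.W l) X D)
    (Sp : ∀ j, 2 * j ≤ X.dim → Splitting S X D f q j) (l₀ : Nat.Primes) (hl₀ : (l₀ : ℕ) ≠ p)
    (hP : ∀ j hj a, HasPositive (S.W l₀) X D j ((Sp j hj).corr a) ((Sp j hj).mult a - 1)) :
    ∃ M : ℕ, 0 < M ∧ ∀ l : Nat.Primes, (l : ℕ) ≠ p → (l : ℕ) % (4 * M) = 4 * M - 1 →
      HomEqNum (S.W l) X := by
  classical
  let ι := Σ j : {j : Fin (X.dim + 1) // 2 * (j : ℕ) ≤ X.dim}, Fin (Sp j.1 j.2).num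
  choose N hN using fun i : ι => piece_num hD hq hX i.1.2 (Sp i.1.1 i.1.2) l₀ hl₀ i.2
    (hP i.1.1 i.1.2 i.2)
  obtain ⟨M, hM, hMN⟩ := exists_modulus_finite N
  refine ⟨M, hM, fun l hl hmod => ?_⟩
  have hfact : Fact (l : ℕ).Prime := ⟨l.2⟩
  apply homEqNum_of_prim hD (hX l hl).2
  intro j hj z hz hzprim hzn
  let j' : {j : Fin (X.dim + 1) // 2 * (j : ℕ) ≤ X.dim} := ⟨⟨j, by omega⟩, hj⟩
  set T := Sp j hj with hT
  rw [← T.sum l hl _ hzprim]
  apply Finset.sum_eq_zero
  intro i _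
  rw [← act_cl]
  refine hN ⟨j', i⟩ l hl ?_ _ (act_isCyc (T.isCyc i) hz) ?_ ?_
  · intro hpos hsq
    obtain ⟨e⟩ := S.iso l hl
    have h2 := hsq.map e
    rw [map_ratCast] at h2
    exact hMN l hmod ⟨j', i⟩ hpos h2
  · rw [act_cl]
    exact ⟨_, hzprim, rfl⟩
  · exact act_numTriv (S.W l) (T.isCyc i) (by omega) hz hzn

end final

end Pool.Agent.H934.PA
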