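import Mathlib

/-!
# Rational numbers which are squares in almost all completions are positive
-/

namespace Pool.Agent.H934.PA

/-- If `ℓ ≡ -1 mod 4 M` then `- M` is not a square modulo the prime `ℓ`. -/
lemma not_isSquare_zmod {M ℓ : ℕ} (hM : 0 < M) [Fact ℓ.Prime] (hℓ : ℓ % (4 * M) = 4 * M - 1) :
    ¬ IsSquare ((-(M : ℤ) : ℤ) : ZMod ℓ) := by
  have hℓ2 : ℓ ≠ 2 := by
    rintro rfl
    by_cases h : 2 < 4 * M
    · rw [Nat.mod_eq_of_lt h] at hℓ; omega
    · omega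
  have hodd : Odd ℓ := (Fact.out : ℓ.Prime).odd_of_ne_two hℓ2
  have h4 : ℓ % 4 = 3 := by
    have h1 : ℓ % (4 * M) % 4 = ℓ % 4 := Nat.mod_mul_right_mod ℓ 4 M
    rw [← h1, hℓ]
    omega
  have h1 : jacobiSym (-(M : ℤ)) ℓ = -1 := by
    rw [neg_eq_neg_one_mul, jacobiSym.mul_left, jacobiSym.at_neg_one hodd, ZMod.χ₄_nat_three_mod_four h4]
    have h2 : jacobiSym (M : ℤ) ℓ = 1 := by
      rw [jacobiSym.mod_right _ hodd]
      have h3 : (M : ℤ).natAbs = M := Int.natAbs_natCast M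
      rw [h3, hℓ]
      have hodd' : Odd (4 * M - 1) := by
        refine ⟨2 * M - 1, by omega⟩
      have h5 : jacobiSym ((4 * M : ℕ) : ℤ) (4 * M - 1) = 1 := by
        rw [jacobiSym.mod_left]
        have : ((4 * M : ℕ) : ℤ) % ((4 * M - 1 : ℕ) : ℤ) = 1 := by
          have e : ((4 * M : ℕ) : ℤ) = 1 + ((4 * M - 1 : ℕ) : ℤ) * 1 := by
            push_cast [Nat.cast_sub (show 1 ≤ 4 * M by omega)]
            ring
          rw [e, Int.add_mul_emod_self_left]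
          apply Int.emod_eq_of_lt (by norm_num)
          push_cast [Nat.cast_sub (show 1 ≤ 4 * M by omega)]
          omega
        rw [this, jacobiSym.one_left]
      have h6 : ((4 * M : ℕ) : ℤ) = (2 : ℤ) ^ 2 * M := by push_cast; ring
      rw [h6, jacobiSym.mul_left] at h5
      have h7 : jacobiSym ((2 : ℤ) ^ 2) (4 * M - 1) = 1 := by
        apply jacobiSym.sq_one'
        rw [Int.gcd_eq_natAbs]
        have h8 : (2 : ℤ).natAbs = 2 := rfl
        rw [h8, Int.natAbs_natCast]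
        exact Nat.coprime_two_left.2 hodd'
      rw [h7, one_mul] at h5
      exact h5
    rw [h2]; norm_num
  intro hsq
  rw [← jacobiSym.legendreSym.to_jacobiSym] at h1
  rw [legendreSym.eq_neg_one_iff] at h1
  exact h1 hsq

/-- There are infinitely many primes modulo which `- M` is not a square. -/
lemma exists_prime {M : ℕ} (hM : 0 < M) (B : ℕ) :
    ∃ ℓ : ℕ, ℓ.Prime ∧ B < ℓ ∧ ℓ % (4 * M) = 4 * M - 1 := by
  have hu : IsUnit (((4 * M - 1 : ℕ) : ZMod (4 * M))) := by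
    rw [ZMod.isUnit_iff_coprime]
    have : Nat.Coprime (4 * M - 1) (4 * M - 1 + 1) := by simp
    rwa [Nat.sub_add_cancel (by omega)] at this
  have : NeZero (4 * M) := ⟨by omega⟩
  obtain ⟨ℓ, hlt, hp, hmod⟩ := Nat.forall_exists_prime_gt_and_eq_mod hu B
  refine ⟨ℓ, hp, hlt, ?_⟩
  rw [ZMod.natCast_eq_natCast_iff'] at hmod
  rw [hmod]
  apply Nat.mod_eq_of_lt
  omega

/-- An integer which is a square in `ℚ_ℓ` is a square modulo `ℓ`. -/
lemma isSquare_zmod_of_padic {ℓ : ℕ} [Fact ℓ.Prime] {N : ℤ} (h : IsSquare ((N : ℚ_[ℓ]))) :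
    IsSquare ((N : ZMod ℓ)) := by
  obtain ⟨y, hy⟩ := h
  have hy1 : ‖y‖ ≤ 1 := by
    have h1 : ‖y‖ * ‖y‖ ≤ 1 := by
      rw [← norm_mul, ← hy]
      exact Padic.norm_int_le_one N
    by_contra hlt
    push Not at hlt
    nlinarith
  let z : ℤ_[ℓ] := ⟨y, hy1⟩
  have hz : (N : ℤ_[ℓ]) = z * z := by
    apply Subtype.ext
    push_cast
    exact hy
  refine ⟨PadicInt.toZMod z, ?_⟩
  rw [← map_mul, ← hz, map_intCast]

/-- **A nonzero rational number which is a square in almost all completions is positive.** -/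
theorem pos_of_squares {d : ℚ} (hd : d ≠ 0) (B : ℕ)
    (h : ∀ ℓ : ℕ, [Fact ℓ.Prime] → B < ℓ → IsSquare ((d : ℚ_[ℓ]))) : 0 < d := by
  by_contra hlt
  push Not at hlt
  have hneg : d < 0 := lt_of_le_of_ne hlt hd
  -- `d * den ^ 2` is a negative integer
  obtain ⟨M, hM, hMd⟩ : ∃ M : ℕ, 0 < M ∧ d * (d.den : ℚ) ^ 2 = -(M : ℚ) := by
    refine ⟨d.num.natAbs * d.den, Nat.mul_pos (Int.natAbs_pos.2 (Rat.num_ne_zero.2 hd)) d.den_pos, ?_⟩
    have h1 : d * d.den = d.num := Rat.mul_den_eq_num d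
    have h2 : (d.num : ℚ) = -(d.num.natAbs : ℚ) := by
      have : d.num = -(d.num.natAbs : ℤ) := by
        have := Rat.num_neg.2 hneg
        omega
      exact_mod_cast this
    rw [pow_two, ← mul_assoc, h1, h2]
    push_cast
    ring
  obtain ⟨ℓ, hp, hB, hmod⟩ := exists_prime hM B
  have : Fact ℓ.Prime := ⟨hp⟩
  obtain ⟨y, hy⟩ := h ℓ hB
  apply not_isSquare_zmod hM hmod
  apply isSquare_zmod_of_padic
  refine ⟨y * d.den, ?_⟩
  have h3 : ((d * (d.den : ℚ) ^ 2 : ℚ) : ℚ_[ℓ]) = ((-(M : ℚ) : ℚ) : ℚ_[ℓ]) := by rw [hMd]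
  push_cast at h3 ⊢
  rw [← h3, hy]
  ring

end Pool.Agent.H934.PA
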