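import Pool.Agent.H934.PA.Defs
import Pool.Agent.H934.PA.Num
import Pool.Agent.H914R2.WeilBasic

/-!
# The parity of the number of the wrong signs
-/

open CategoryTheory AlgebraicGeometry Module
open scoped Polynomial

universe u v

namespace Pool.Agent.H934.PA

open Pool.Agent.H914 Pool.Agent.H914.VarClass Pool.Agent.H914.VarClass.Obj
  Pool.Agent.H914.WeilCohomology

variable {k : Type u} [Field k] {𝒱 : VarClass k} {ops : CycleOps 𝒱}

lemma eval_map_rat {K : Type*} [Field K] [CharZero K] (g : ℚ[X]) (x : ℚ) :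
    (g.map (algebraMap ℚ K)).eval (x : K) = ((g.eval x : ℚ) : K) := by
  have := Polynomial.eval_map_algebraMap (B := K) g ((x : ℚ) : K)
  rw [this]
  have h2 := Polynomial.aeval_algebraMap_apply_eq_algebraMap_eval (A := K) x g
  rw [eq_ratCast, eq_ratCast] at h2
  exact h2

section one

variable {W : WeilCohomology.{u, v} ops} {X : 𝒱.Obj} {D : X.Cycles} {j : ℕ}

lemma cl_divPow (z : X.Cycles) (n : ℕ) :
    W.cl X (divPow ops D n z) = W.cl X D ^ n * W.cl X z := by
  induction n with
  | zero => simp [divPow]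
  | succ n ih =>
    rw [divPow, Function.iterate_succ_apply', W.cl_mul]
    rw [divPow] at ih
    rw [ih, pow_succ', mul_assoc]

lemma isCyc_divPow (hD : X.IsCyc 1 D) {z : X.Cycles} {i : ℕ} (hz : X.IsCyc i z) (n : ℕ) :
    X.IsCyc (n + i) (divPow ops D n z) := by
  induction n with
  | zero => rw [zero_add]; exact hz
  | succ n ih =>
    rw [divPow, Function.iterate_succ_apply']
    have := ops.mul_mem hD ih
    rwa [show 1 + (n + i) = n + 1 + i by omega] at this

lemma tr_cl_mul {i i' : ℕ} {z w : X.Cycles} (hz : X.IsCyc i z) (hw : X.IsCyc i' w)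
    (h : i + i' = X.dim) : W.tr X (W.cl X z * W.cl X w) = (X.V.degCycle (ops.mul z w) : W.K) := by
  rw [← W.cl_mul, W.tr_cl]
  rw [← h]
  exact ops.mul_mem hz hw

lemma hform_apply (a b : W.H X) :
    hform W X D j a b = W.tr X (a * b * W.cl X D ^ (X.dim - 2 * j)) := rfl

lemma xi_pow_comm (hD : X.IsCyc 1 D) (n : ℕ) (a : W.H X) :
    W.cl X D ^ n * a = a * W.cl X D ^ n := by
  induction n with
  | zero => simp
  | succ n ih => rw [pow_succ, mul_assoc, W.even_comm (W.cl_mem hD), ← mul_assoc, ih, mul_assoc]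

lemma hform_symm {a b : W.H X} (ha : a ∈ W.gr X (2 * j)) :
    hform W X D j a b = hform W X D j b a := by
  rw [hform_apply, hform_apply, W.even_comm ha]

lemma pairing_cast (hD : X.IsCyc 1 D) (hj : 2 * j ≤ X.dim) {z w : X.Cycles} (hz : X.IsCyc j z)
    (hw : X.IsCyc j w) : (pairing ops X D j z w : W.K) = hform W X D j (W.cl X z) (W.cl X w) := by
  have h1 := isCyc_divPow (ops := ops) hD hw (X.dim - 2 * j)
  rw [pairing, ← tr_cl_mul (W := W) hz h1 (by omega), hform_apply, cl_divPow, mul_assoc,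
    xi_pow_comm hD]

/-- The Frobenius endomorphism multiplies the form by `q ^ (2 j)`. -/
lemma hform_frob {f : X ⟶ X} {q : ℕ} (hq : 0 < q) (hf : IsFrobenius W X D f q)
    (hj : 2 * j ≤ X.dim) (a b : W.H X) : hform W X D j (W.map f a) (W.map f b) =
      ((((q : ℚ) ^ j : ℚ)) : W.K) ^ 2 * hform W X D j a b := by
  have hq0 : (q : W.K) ≠ 0 := by exact_mod_cast hq.ne'
  have h1 : W.map f (W.cl X D ^ (X.dim - 2 * j)) =
      (q : W.K) ^ (X.dim - 2 * j) • W.cl X D ^ (X.dim - 2 * j) := by
    rw [map_pow, hf.div, smul_pow]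
  have h2 : W.tr X (W.map f (a * b * W.cl X D ^ (X.dim - 2 * j))) =
      (q : W.K) ^ X.dim * hform W X D j a b := by
    rw [← one_mul (W.map f _), ← W.tr_push, hf.degree, smul_mul_assoc, one_mul, map_smul,
      smul_eq_mul, hform_apply]
  rw [map_mul (W.map f), map_mul (W.map f), h1, mul_smul_comm, map_smul, smul_eq_mul] at h2
  apply mul_left_cancel₀ (pow_ne_zero (X.dim - 2 * j) hq0)
  rw [hform_apply, h2]
  push_cast
  rw [← mul_assoc, ← pow_mul, ← pow_add]
  congr 2
  omega

variable {c : (X.prod X).Cycles} {f : X ⟶ X}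

lemma piece_le (hc : IsProj W X D f j c) : piece W X D j c ≤ prim W X D j := by
  rintro _ ⟨a, ha, rfl⟩
  exact hc.mem a ha

lemma corr_piece (hc : IsProj W X D f j c) {a : W.H X} (ha : a ∈ piece W X D j c) :
    W.corr (W.cl _ c) a = a := by
  obtain ⟨b, hb, rfl⟩ := ha
  exact hc.idem b hb

/-- Elements of a piece on which some power of the Frobenius acts as on algebraic classes. -/
lemma eigen_piece {q : ℕ} (hq : 0 < q) (hf : IsFrobenius W X D f q) {g : ℚ[X]}
    (hg : IsWeilPoly ((q : ℚ) ^ j) g) {r : ℕ} {U : Submodule W.K (W.H X)}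
    (hU : HasCharpoly W X f U ((Polynomial.X - Polynomial.C ((q : ℚ) ^ j)) ^ r * g)) {z : X.Cycles} (hz : X.IsCyc j z)
    (hzU : W.cl X z ∈ U) : W.map f (W.cl X z) = (((q : ℚ) ^ j : ℚ) : W.K) • W.cl X z := by
  obtain ⟨hs, hchar⟩ := hU
  obtain ⟨m, hm, hmz⟩ := hf.cycles j z hz
  have hiter : ∀ m : ℕ, W.cl X ((ops.pull f)^[m] z) =
      (((W.map f).toLinearMap.restrict hs ^ m) ⟨W.cl X z, hzU⟩ : U) := by
    intro m
    induction m with
    | zero => rfl
    | succ m ih =>
      rw [Function.iterate_succ_apply', W.cl_pull, ih, pow_succ', Module.End.mul_apply]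
      rfl
  have hlam : (0 : ℚ) < (q : ℚ) ^ j := by
    apply pow_pos
    exact_mod_cast hq
  have := eigen_of_pow (F := (W.map f).toLinearMap.restrict hs) hlam hg hchar hm
    (x := ⟨W.cl X z, hzU⟩) (by
      apply Subtype.ext
      rw [← hiter, hmz]
      push_cast
      rw [← pow_mul, mul_comm m j])
  exact congrArg Subtype.val this

end one

section disc

variable {W : WeilCohomology.{u, v} ops} {X : 𝒱.Obj} {D : X.Cycles} {f : X ⟶ X} {q j : ℕ}
  {c : (X.prod X).Cycles} {d r : ℕ} {G : Matrix (Fin d) (Fin d) ℚ} {g : ℚ[X]}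

/-- The set-up on a piece. -/
lemma piece_setup (hq : 0 < q) (hf : IsFrobenius W X D f q) (hj : 2 * j ≤ X.dim)
    (hc : IsProj W X D f j c)
    (hG : HasGram W X D j c G) (hGdet : G.det ≠ 0)
    (hch : HasCharpoly W X f (piece W X D j c) ((Polynomial.X - Polynomial.C ((q : ℚ) ^ j)) ^ r * g)) :
    ∃ (F : Module.End W.K (piece W X D j c)) (B : LinearMap.BilinForm W.K (piece W X D j c))
      (b : Basis (Fin d) W.K (piece W X D j c)),
      (∀ a, ((F a : piece W X D j c) : W.H X) = W.map f a) ∧ (∀ a a', B a a' = hform W X D j a a') ∧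
      (∀ x y, B x y = B y x) ∧ (∀ x, (∀ y, B x y = 0) → x = 0) ∧
      (∀ x y, B (F x) (F y) = ((((q : ℚ) ^ j : ℚ)) : W.K) ^ 2 * B x y) ∧
      F.charpoly = (Polynomial.X - Polynomial.C ((((q : ℚ) ^ j : ℚ)) : W.K)) ^ r * g.map (algebraMap ℚ W.K) ∧
      (g.map (algebraMap ℚ W.K)).eval ((((q : ℚ) ^ j : ℚ)) : W.K) =
        ((g.eval ((q : ℚ) ^ j) : ℚ) : W.K) ∧
      (g.map (algebraMap ℚ W.K)).eval (-((((q : ℚ) ^ j : ℚ)) : W.K)) =
        ((g.eval (-((q : ℚ) ^ j)) : ℚ) : W.K) ∧
      (∀ i i', G.map (Rat.cast : ℚ → W.K) i i' = B (b i) (b i')) ∧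
      (G.map (Rat.cast : ℚ → W.K)).det = ((G.det : ℚ) : W.K) := by
  obtain ⟨hs, hchar⟩ := hch
  obtain ⟨b, hb⟩ := hG
  have hdet : (G.map (Rat.cast : ℚ → W.K)).det = ((G.det : ℚ) : W.K) :=
    ((Rat.castHom W.K).map_det G).symm
  refine ⟨(W.map f).toLinearMap.restrict hs, (hform W X D j).restrict (piece W X D j c), b,
    fun a => rfl, fun a a' => rfl, ?_, ?_, ?_, ?_, ?_, ?_, ?_, hdet⟩
  · intro x y
    exact hform_symm (piece_le hc x.2).1
  · have hB : ((hform W X D j).restrict (piece W X D j c)).Nondegenerate := by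
      apply LinearMap.BilinForm.nondegenerate_of_det_ne_zero _ b
      have : LinearMap.BilinForm.toMatrix b ((hform W X D j).restrict (piece W X D j c)) =
          G.map (Rat.cast : ℚ → W.K) := by
        ext i i'
        rw [LinearMap.BilinForm.toMatrix_apply]
        exact hb i i'
      rw [this, hdet]
      exact_mod_cast hGdet
    intro x hx
    exact hB.1 x hx
  · intro x y
    exact hform_frob hq hf hj _ _
  · rw [hchar]
    simp [Polynomial.map_mul, Polynomial.map_pow, Polynomial.map_sub]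
  · exact eval_map_rat g _
  · have := eval_map_rat (K := W.K) g (-((q : ℚ) ^ j))
    rw [← this]
    push_cast
    rfl
  · intro i i'
    exact (hb i i').symm

/-- The number of independent orthogonal algebraic classes on a piece: they are not isotropic. -/
lemma pairing_ne (hD : X.IsCyc 1 D) (hq : 0 < q) (hf : IsFrobenius W X D f q) (hj : 2 * j ≤ X.dim)
    (hg : IsWeilPoly ((q : ℚ) ^ j) g) (hgm : g.Monic) (hc : IsProj W X D f j c)
    (hG : HasGram W X D j c G) (hGdet : G.det ≠ 0)
    (hch : HasCharpoly W X f (piece W X D j c)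
      ((Polynomial.X - Polynomial.C ((q : ℚ) ^ j)) ^ r * g)) (z : Fin r → X.Cycles)
    (hz : ∀ i, X.IsCyc j (z i)) (hzp : ∀ i, W.cl X (z i) ∈ piece W X D j c)
    (hli : LinearIndependent W.K fun i => W.cl X (z i))
    (horth : ∀ i i', i ≠ i' → pairing ops X D j (z i) (z i') = 0) (i : Fin r) :
    pairing ops X D j (z i) (z i) ≠ 0 := by
  obtain ⟨F, B, b, hF, hB, hBs, hnd, hiso, hchar, hg1, hg2, hGb, hdet⟩ :=
    piece_setup hq hf hj hc hG hGdet hch
  have hlam : ((((q : ℚ) ^ j : ℚ)) : W.K) ≠ 0 := by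
    have : ((q : ℚ) ^ j) ≠ 0 := pow_ne_zero _ (by exact_mod_cast hq.ne')
    exact_mod_cast this
  let x : Fin r → piece W X D j c := fun i => ⟨W.cl X (z i), hzp i⟩
  have hx : ∀ i, F (x i) = ((((q : ℚ) ^ j : ℚ)) : W.K) • x i := fun i => by
    apply Subtype.ext
    rw [hF]
    exact eigen_piece hq hf hg hch (hz i) (hzp i)
  have hBz : ∀ i i', B (x i) (x i') = ((pairing ops X D j (z i) (z i') : ℚ) : W.K) := fun i i' => by
    rw [hB, pairing_cast hD hj (hz i) (hz i')]
  have hli' : LinearIndependent W.K x := by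
    apply LinearIndependent.of_comp (piece W X D j c).subtype
    exact hli
  have := not_isotropic B hBs hnd F hlam hiso x hx (fun i i' hne => by
    rw [hBz, horth i i' hne, Rat.cast_zero]) hli' hchar (by
      rw [hg1]
      exact_mod_cast (hg.pos hgm _).ne') i
  rw [hBz] at this
  intro h0
  rw [h0, Rat.cast_zero] at this
  exact this rfl

/-- **The discriminant of a piece.** -/
theorem piece_disc (hD : X.IsCyc 1 D) (hq : 0 < q) (hf : IsFrobenius W X D f q)
    (hj : 2 * j ≤ X.dim) (hg : IsWeilPoly ((q : ℚ) ^ j) g) (hgm : g.Monic)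
    (hc : IsProj W X D f j c) (hG : HasGram W X D j c G) (hGdet : G.det ≠ 0)
    (hch : HasCharpoly W X f (piece W X D j c)
      ((Polynomial.X - Polynomial.C ((q : ℚ) ^ j)) ^ r * g)) (z : Fin r → X.Cycles)
    (hz : ∀ i, X.IsCyc j (z i)) (hzp : ∀ i, W.cl X (z i) ∈ piece W X D j c)
    (hne : ∀ i, pairing ops X D j (z i) (z i) ≠ 0)
    (horth : ∀ i i', i ≠ i' → pairing ops X D j (z i) (z i') = 0) :
    (∃ t, Even t ∧ d = r + t) ∧
      IsSquare (((G.det * (∏ i, pairing ops X D j (z i) (z i)) *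
        (g.eval ((q : ℚ) ^ j) * g.eval (-((q : ℚ) ^ j))) : ℚ)) : W.K) := by
  obtain ⟨F, B, b, hF, hB, hBs, hnd, hiso, hchar, hg1, hg2, hGb, hdet⟩ :=
    piece_setup hq hf hj hc hG hGdet hch
  have hlam : ((((q : ℚ) ^ j : ℚ)) : W.K) ≠ 0 := by
    have : ((q : ℚ) ^ j) ≠ 0 := pow_ne_zero _ (by exact_mod_cast hq.ne')
    exact_mod_cast this
  let x : Fin r → piece W X D j c := fun i => ⟨W.cl X (z i), hzp i⟩
  have hx : ∀ i, F (x i) = ((((q : ℚ) ^ j : ℚ)) : W.K) • x i := fun i => by
    apply Subtype.ext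
    rw [hF]
    exact eigen_piece hq hf hg hch (hz i) (hzp i)
  have hBz : ∀ i i', B (x i) (x i') = ((pairing ops X D j (z i) (z i') : ℚ) : W.K) := fun i i' => by
    rw [hB, pairing_cast hD hj (hz i) (hz i')]
  have := disc_eigen B hBs F hlam hiso x hx (fun i i' hne => by
    rw [hBz, horth i i' hne, Rat.cast_zero]) (fun i => by
      rw [hBz]
      exact_mod_cast hne i) hchar (by
      rw [hg1]
      exact_mod_cast (hg.pos hgm _).ne') (by
      rw [hg2]
      exact_mod_cast (hg.pos hgm _).ne') b hGb (by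
      rw [hdet]
      exact_mod_cast hGdet)
  refine ⟨this.1, ?_⟩
  have h2 := this.2
  rw [hdet, hg1, hg2] at h2
  have h3 : ∏ i, B (x i) (x i) = ((∏ i, pairing ops X D j (z i) (z i) : ℚ) : W.K) := by
    rw [Rat.cast_prod]
    exact Finset.prod_congr rfl fun i _ => hBz i i
  rw [h3] at h2
  push_cast at h2 ⊢
  exact h2

end disc

section transfer

variable {W W' : WeilCohomology.{u, v} ops} {X : 𝒱.Obj} {D : X.Cycles} {f : X ⟶ X} {j : ℕ}
  {c : (X.prod X).Cycles}

/-- The cycles `z` and `w` of codimension `j` are numerically equivalent. -/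
def NumEq (ops : CycleOps 𝒱) (X : 𝒱.Obj) (j : ℕ) (z w : X.Cycles) : Prop :=
  ∀ y, X.IsCyc (X.dim - j) y → X.V.degCycle (ops.mul z y) = X.V.degCycle (ops.mul w y)

/-- The cycle `c_* z`. -/
noncomputable def act (ops : CycleOps 𝒱) {X : 𝒱.Obj} (c : (X.prod X).Cycles) (z : X.Cycles) :
    X.Cycles :=
  ops.push (snd X X) (ops.mul c (ops.pull (fst X X) z))

lemma act_cl (c : (X.prod X).Cycles) (z : X.Cycles) :
    W.cl X (act ops c z) = W.corr (W.cl _ c) (W.cl X z) := by
  rw [act, W.cl_push, W.cl_mul, W.cl_pull, corr_apply]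

lemma act_isCyc (hc : (X.prod X).IsCyc X.dim c) {z : X.Cycles} (hz : X.IsCyc j z) :
    X.IsCyc j (act ops c z) := by
  apply ops.push_mem (snd X X) (ops.mul_mem hc (ops.pull_mem (fst X X) hz))
  rw [dim_prod]
  omega

/-- Numerically equivalent cycles have the same intersection numbers. -/
lemma pairing_congr (W : WeilCohomology.{u, v} ops) (hD : X.IsCyc 1 D) (hj : 2 * j ≤ X.dim)
    {z z' w w' : X.Cycles} (hz : X.IsCyc j z) (hz' : X.IsCyc j z') (hw : X.IsCyc j w)
    (hw' : X.IsCyc j w') (h : NumEq ops X j z z') (h' : NumEq ops X j w w') :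
    pairing ops X D j z w = pairing ops X D j z' w' := by
  have hsymm : ∀ {a b : X.Cycles}, X.IsCyc j a → X.IsCyc j b →
      pairing ops X D j a b = pairing ops X D j b a := by
    intro a b ha hb
    have h1 := pairing_cast (W := W) hD hj ha hb
    have h2 := pairing_cast (W := W) hD hj hb ha
    rw [hform_symm (W.cl_mem ha), ← h2] at h1
    exact_mod_cast h1
  have h1 : ∀ {a b b' : X.Cycles}, X.IsCyc j a → NumEq ops X j b b' →
      pairing ops X D j b a = pairing ops X D j b' a := by
    intro a b b' ha hb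
    apply hb
    have := isCyc_divPow (ops := ops) hD ha (X.dim - 2 * j)
    rwa [show X.dim - 2 * j + j = X.dim - j by omega] at this
  rw [h1 hw h, hsymm hz' hw, h1 hz' h', hsymm hw' hz']

/-- Correspondences preserve numerical equivalence. -/
lemma act_numEq (W : WeilCohomology.{u, v} ops) (hc : (X.prod X).IsCyc X.dim c) (hj : j ≤ X.dim)
    {z z' : X.Cycles} (hz : X.IsCyc j z) (hz' : X.IsCyc j z') (h : NumEq ops X j z z') :
    NumEq ops X j (act ops c z) (act ops c z') := by
  intro y hy
  set y' := ops.push (fst X X) (ops.mul c (ops.pull (snd X X) y)) with hy'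
  have hy'c : X.IsCyc (X.dim - j) y' := by
    apply ops.push_mem (fst X X) (ops.mul_mem hc (ops.pull_mem (snd X X) hy))
    rw [dim_prod]
    omega
  have key : ∀ {w : X.Cycles}, X.IsCyc j w → (X.V.degCycle (ops.mul (act ops c w) y) : W.K) =
      (X.V.degCycle (ops.mul w y') : W.K) := by
    intro w hw
    rw [← tr_cl_mul (act_isCyc hc hw) hy (by omega), ← tr_cl_mul hw hy'c (by omega), act_cl,
      corr_apply, W.tr_push, hy', W.cl_push, W.cl_mul, W.cl_pull,
      W.even_comm (W.cl_mem hw), W.tr_push]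
    congr 1
    have hcc := W.even_comm (W.cl_mem hc)
    rw [mul_assoc, mul_assoc]
    congr 1
    exact W.even_comm (W.map_mem _ (W.cl_mem hw)) _
  have h1 := key hz
  have h2 := key hz'
  rw [h y' hy'c] at h1
  have h3 : (X.V.degCycle (ops.mul (act ops c z) y) : W.K) =
      (X.V.degCycle (ops.mul (act ops c z') y) : W.K) := by rw [h1, h2]
  exact_mod_cast h3

/-- **Change of the prime number `ℓ`**: a cycle whose class in `W` is primitive is numerically
equivalent to a cycle whose class in `W'` is primitive. -/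
lemma exists_prim (hD : X.IsCyc 1 D) (hj : 2 * j ≤ X.dim) (hA : LefschetzA W' X D)
    {z : X.Cycles} (hz : X.IsCyc j z) (hzp : W.cl X z ∈ prim W X D j) :
    ∃ z', X.IsCyc j z' ∧ W'.cl X z' ∈ prim W' X D j ∧ NumEq ops X j z z' := by
  rcases Nat.eq_zero_or_pos j with rfl | hj0
  · refine ⟨z, hz, ⟨W'.cl_mem hz, ?_⟩, fun y _ => rfl⟩
    change W'.cl X D ^ (X.dim - 2 * 0 + 1) * W'.cl X z = 0
    rw [← cl_divPow]
    have h1 := W'.cl_mem (isCyc_divPow (ops := ops) hD hz (X.dim - 2 * 0 + 1))
    rw [W'.gr_eq_bot X _ (by omega)] at h1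
    exact (Submodule.mem_bot _).1 h1
  · have h1 := isCyc_divPow (ops := ops) hD hz (X.dim - 2 * j + 1)
    rw [show X.dim - 2 * j + 1 + j = X.dim - (j - 1) by omega] at h1
    obtain ⟨z1, hz1, hz1'⟩ := hA (j - 1) (by omega) _ h1
    rw [cl_divPow, cl_divPow] at hz1'
    have hDz1 : X.IsCyc j (ops.mul D z1) := by
      have := ops.mul_mem hD hz1
      rwa [show 1 + (j - 1) = j by omega] at this
    have hz' : X.IsCyc j (z + (-1 : ℚ) • ops.mul D z1) :=
      SmVar.IsCyc.add hz (SmVar.IsCyc.smul _ hDz1)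
    refine ⟨z + (-1 : ℚ) • ops.mul D z1, hz', ⟨W'.cl_mem hz', ?_⟩, ?_⟩
    · change W'.cl X D ^ (X.dim - 2 * j + 1) * W'.cl X (z + (-1 : ℚ) • ops.mul D z1) = 0
      rw [map_add, cl_smul, W'.cl_mul, mul_add, ← hz1', mul_smul_comm]
      have h2 : X.dim - 2 * (j - 1) = X.dim - 2 * j + 1 + 1 := by omega
      rw [h2, pow_succ (W'.cl X D) (X.dim - 2 * j + 1), mul_assoc]
      push_cast
      rw [neg_one_smul, add_neg_cancel]
    · -- the cycle `z1` is numerically equivalent to zero
      have hzero : ∀ y, X.IsCyc (X.dim - (j - 1)) y → X.V.degCycle (ops.mul z1 y) = 0 := by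
        intro y hy
        obtain ⟨y', hy', hyy⟩ := hA (j - 1) (by omega) y hy
        have h3 : (X.V.degCycle (ops.mul z1 y) : W'.K) =
            (X.V.degCycle (ops.mul (divPow ops D (X.dim - 2 * j + 1) z) y') : W'.K) := by
          rw [← tr_cl_mul hz1 hy (by omega), ← tr_cl_mul h1 hy' (by omega), ← hyy, cl_divPow,
            cl_divPow, ← hz1', ← mul_assoc, ← xi_pow_comm hD]
        have h4 : (X.V.degCycle (ops.mul (divPow ops D (X.dim - 2 * j + 1) z) y') : W.K) = 0 := by
          rw [← tr_cl_mul h1 hy' (by omega), cl_divPow]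
          have h4' : W.cl X D ^ (X.dim - 2 * j + 1) * W.cl X z = 0 := hzp.2
          rw [h4', zero_mul, map_zero]
        have h5 : X.V.degCycle (ops.mul (divPow ops D (X.dim - 2 * j + 1) z) y') = 0 := by
          exact_mod_cast h4
        rw [h5] at h3
        exact_mod_cast h3
      intro y hy
      have hDy : X.IsCyc (X.dim - (j - 1)) (ops.mul D y) := by
        have := ops.mul_mem hD hy
        rwa [show 1 + (X.dim - j) = X.dim - (j - 1) by omega] at this
      have h3 : (X.V.degCycle (ops.mul (z + (-1 : ℚ) • ops.mul D z1) y) : W'.K) =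
          (X.V.degCycle (ops.mul z y) : W'.K) - (X.V.degCycle (ops.mul z1 (ops.mul D y)) : W'.K) := by
        rw [← tr_cl_mul hz' hy (by omega), ← tr_cl_mul hz hy (by omega),
          ← tr_cl_mul hz1 hDy (by omega), map_add, cl_smul, add_mul, map_add, smul_mul_assoc,
          map_smul, W'.cl_mul, W'.cl_mul, W'.even_comm (W'.cl_mem hD), mul_assoc]
        push_cast
        rw [neg_one_smul, sub_eq_add_neg]
      rw [hzero _ hDy, Rat.cast_zero, sub_zero] at h3
      have h4 : X.V.degCycle (ops.mul (z + (-1 : ℚ) • ops.mul D z1) y) =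
          X.V.degCycle (ops.mul z y) := by exact_mod_cast h3
      exact h4.symm

/-- Change of the prime number `ℓ` on a piece. -/
lemma exists_piece (hD : X.IsCyc 1 D) (hj : 2 * j ≤ X.dim) (hA : LefschetzA W' X D)
    (hc : (X.prod X).IsCyc X.dim c) (hp : IsProj W X D f j c)
    {z : X.Cycles} (hz : X.IsCyc j z) (hzp : W.cl X z ∈ piece W X D j c) :
    ∃ z', X.IsCyc j z' ∧ W'.cl X z' ∈ piece W' X D j c ∧ NumEq ops X j z z' := by
  obtain ⟨z1, hz1, hz1p, h1⟩ := exists_prim (W' := W') hD hj hA hz (piece_le hp hzp)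
  refine ⟨act ops c z1, act_isCyc hc hz1, ?_, ?_⟩
  · rw [act_cl]
    exact ⟨_, hz1p, rfl⟩
  · have h2 := act_numEq W hc (by omega) hz hz1 h1
    intro y hy
    rw [← h2 y hy]
    have h3 : (X.V.degCycle (ops.mul (act ops c z) y) : W.K) =
        (X.V.degCycle (ops.mul z y) : W.K) := by
      rw [← tr_cl_mul (act_isCyc hc hz) hy (by omega), ← tr_cl_mul hz hy (by omega), act_cl,
        corr_piece hp hzp]
    exact_mod_cast h3.symm

end transfer

section final

lemma form_expand {K V : Type*} [Field K] [AddCommGroup V] [Module K V]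
    (B : LinearMap.BilinForm K V) (u v : V) :
    B (u + v) (u + v) = B u u + B u v + (B v u + B v v) := by
  rw [LinearMap.map_add₂, map_add, map_add]

variable {p : ℕ} {S : LadicSystem.{u, v} ops p} {X : 𝒱.Obj} {D : X.Cycles} {f : X ⟶ X} {q : ℕ}

/-- **The parity theorem for a piece.** -/
theorem parity_piece (hD : X.IsCyc 1 D) (hq : 0 < q)
    (hX : ∀ l : Nat.Primes, (l : ℕ) ≠ p → IsFrobenius (S.W l) X D f q ∧ LefschetzA (S.W l) X D)
    {j : ℕ} (hj : 2 * j ≤ X.dim) (Sp : Splitting S X D f q j) (l : Nat.Primes) (hl : (l : ℕ) ≠ p)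
    (a : Fin Sp.num) (z : Fin (Sp.mult a) → X.Cycles) (hz : ∀ i, X.IsCyc j (z i))
    (hzp : ∀ i, (S.W l).cl X (z i) ∈ piece (S.W l) X D j (Sp.corr a))
    (hli : LinearIndependent (S.W l).K fun i => (S.W l).cl X (z i))
    (horth : ∀ i i', i ≠ i' → pairing ops X D j (z i) (z i') = 0) :
    0 < ∏ i, (-1 : ℚ) ^ j * pairing ops X D j (z i) (z i) := by
  classical
  have hsign := (Sp.signs a).sign (Sp.symm a)
  have hGdet : (Sp.gram a).det ≠ 0 := fun h0 => by
    rw [h0, mul_zero] at hsign
    exact lt_irrefl _ hsign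
  have hne : ∀ i, pairing ops X D j (z i) (z i) ≠ 0 :=
    pairing_ne hD hq (hX l hl).1 hj (Sp.weil a) (Sp.monic a) (Sp.isProj l hl a)
      (Sp.hasGram l hl a) hGdet (Sp.hasCharpoly l hl a) z hz hzp hli horth
  have hg1 := (Sp.weil a).pos (Sp.monic a) ((q : ℚ) ^ j)
  have hg2 := (Sp.weil a).pos (Sp.monic a) (-((q : ℚ) ^ j))
  set N : ℚ := (Sp.gram a).det * (∏ i, pairing ops X D j (z i) (z i)) *
        ((Sp.rest a).eval ((q : ℚ) ^ j) * (Sp.rest a).eval (-((q : ℚ) ^ j))) with hN
  have hprod : ∏ i, pairing ops X D j (z i) (z i) ≠ 0 := Finset.prod_ne_zero_iff.2 fun i _ => hne i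
  have hN0 : N ≠ 0 := mul_ne_zero (mul_ne_zero hGdet hprod) (mul_pos hg1 hg2).ne'
  have hd := (piece_disc hD hq (hX l hl).1 hj (Sp.weil a) (Sp.monic a) (Sp.isProj l hl a)
      (Sp.hasGram l hl a) hGdet (Sp.hasCharpoly l hl a) z hz hzp hne horth).1
  -- all completions
  have hpos : 0 < N := by
    apply pos_of_squares hN0 p
    intro l' hfact hlt
    let L : Nat.Primes := ⟨l', hfact.out⟩
    have hL : (L : ℕ) ≠ p := by
      change l' ≠ p
      omega
    choose z' hz' hz'p hzz using fun i =>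
      exists_piece (W' := S.W L) hD hj (hX L hL).2 (Sp.isCyc a) (Sp.isProj l hl a) (hz i) (hzp i)
    have hpp : ∀ i i', pairing ops X D j (z' i) (z' i') = pairing ops X D j (z i) (z i') :=
      fun i i' => (pairing_congr (S.W L) hD hj (hz i) (hz' i) (hz i') (hz' i') (hzz i) (hzz i')).symm
    have h1 := (piece_disc hD hq (hX L hL).1 hj (Sp.weil a) (Sp.monic a) (Sp.isProj L hL a)
      (Sp.hasGram L hL a) hGdet (Sp.hasCharpoly L hL a) z' hz' hz'p
      (fun i => by rw [hpp]; exact hne i) (fun i i' hii => by rw [hpp]; exact horth i i' hii)).2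
    simp only [hpp] at h1
    rw [← hN] at h1
    obtain ⟨e⟩ := S.iso L hL
    have h2 := h1.map e
    rw [map_ratCast] at h2
    exact h2
  have h3 : 0 < (Sp.gram a).det * (∏ i, pairing ops X D j (z i) (z i)) :=
    (mul_pos_iff_of_pos_right (mul_pos hg1 hg2)).1 hpos
  obtain ⟨t, ht, hdt⟩ := hd
  have h4 : (-1 : ℚ) ^ (j * Sp.rank a) = ((-1 : ℚ) ^ j) ^ Sp.mult a := by
    rw [hdt, mul_add, pow_add, (ht.mul_left j).neg_one_pow, mul_one, pow_mul]
  rw [Finset.prod_mul_distrib, Finset.prod_const, Finset.card_univ, Fintype.card_fin, ← h4]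
  have h5 := mul_pos hsign h3
  have h6 : (-1 : ℚ) ^ (j * Sp.rank a) * (Sp.gram a).det *
      ((Sp.gram a).det * ∏ i, pairing ops X D j (z i) (z i)) =
      (Sp.gram a).det ^ 2 * ((-1 : ℚ) ^ (j * Sp.rank a) *
        ∏ i, pairing ops X D j (z i) (z i)) := by ring
  rw [h6] at h5
  exact (mul_pos_iff_of_pos_left (by positivity)).1 h5

/-- The eigenvalue `q ^ j` occurs on a piece with a nonzero algebraic class. -/
lemma mult_pos (hq : 0 < q)
    (hX : ∀ l : Nat.Primes, (l : ℕ) ≠ p → IsFrobenius (S.W l) X D f q ∧ LefschetzA (S.W l) X D)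
    {j : ℕ} (Sp : Splitting S X D f q j) (l : Nat.Primes) (hl : (l : ℕ) ≠ p)
    (a : Fin Sp.num) {z : X.Cycles} (hz : X.IsCyc j z)
    (hzp : (S.W l).cl X z ∈ piece (S.W l) X D j (Sp.corr a)) (hne : (S.W l).cl X z ≠ 0) :
    Sp.mult a ≠ 0 := by
  intro h0
  have h1 := eigen_piece hq (hX l hl).1 (Sp.weil a) (Sp.hasCharpoly l hl a) hz hzp
  obtain ⟨hs, hchar⟩ := Sp.hasCharpoly l hl a
  set F := ((S.W l).map f).toLinearMap.restrict hs with hF
  have h2 : Module.End.HasEigenvalue F ((((q : ℚ) ^ j : ℚ)) : (S.W l).K) := by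
    apply Module.End.hasEigenvalue_of_hasEigenvector
      (x := (⟨(S.W l).cl X z, hzp⟩ : piece (S.W l) X D j (Sp.corr a)))
    refine ⟨Module.End.mem_eigenspace_iff.2 (Subtype.ext h1), fun h => hne (congrArg Subtype.val h)⟩
  have h3 := (Module.End.hasEigenvalue_iff_isRoot_charpoly F _).1 h2
  rw [hchar, h0, pow_zero, one_mul, Polynomial.IsRoot, eval_map_rat] at h3
  have h4 := (Sp.weil a).pos (Sp.monic a) ((q : ℚ) ^ j)
  have h5 : (Sp.rest a).eval ((q : ℚ) ^ j) = 0 := by exact_mod_cast h3
  exact h4.ne' h5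

/-- The parity theorem for families with an arbitrary finite index set. -/
lemma parity_fintype (hD : X.IsCyc 1 D) (hq : 0 < q)
    (hX : ∀ l : Nat.Primes, (l : ℕ) ≠ p → IsFrobenius (S.W l) X D f q ∧ LefschetzA (S.W l) X D)
    {j : ℕ} (hj : 2 * j ≤ X.dim) (Sp : Splitting S X D f q j) (l : Nat.Primes) (hl : (l : ℕ) ≠ p)
    (a : Fin Sp.num) {ι : Type} [Fintype ι] (hι : Fintype.card ι = Sp.mult a)
    (z : ι → X.Cycles) (hz : ∀ i, X.IsCyc j (z i))
    (hzp : ∀ i, (S.W l).cl X (z i) ∈ piece (S.W l) X D j (Sp.corr a))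
    (hli : LinearIndependent (S.W l).K fun i => (S.W l).cl X (z i))
    (horth : ∀ i i', i ≠ i' → pairing ops X D j (z i) (z i') = 0) :
    0 < ∏ i, (-1 : ℚ) ^ j * pairing ops X D j (z i) (z i) := by
  classical
  let e : ι ≃ Fin (Sp.mult a) := Fintype.equivFinOfCardEq hι
  have h := parity_piece hD hq hX hj Sp l hl a (fun i => z (e.symm i)) (fun i => hz _)
    (fun i => hzp _) (hli.comp e.symm e.symm.injective)
    (fun i i' hii => horth _ _ fun h => hii (e.symm.injective h))
  rwa [Equiv.prod_comp e.symm fun i => (-1 : ℚ) ^ j * pairing ops X D j (z i) (z i)] at h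

/-- **The positivity on a piece with sufficiently many classes with the right sign.** -/
theorem pos_of_hasPositive (hD : X.IsCyc 1 D) (hq : 0 < q)
    (hX : ∀ l : Nat.Primes, (l : ℕ) ≠ p → IsFrobenius (S.W l) X D f q ∧ LefschetzA (S.W l) X D)
    {j : ℕ} (hj : 2 * j ≤ X.dim) (Sp : Splitting S X D f q j) (l : Nat.Primes) (hl : (l : ℕ) ≠ p)
    (a : Fin Sp.num) (hpos : HasPositive (S.W l) X D j (Sp.corr a) (Sp.mult a))
    {y : X.Cycles} (hy : X.IsCyc j y)
    (hyp : (S.W l).cl X y ∈ piece (S.W l) X D j (Sp.corr a)) (hne : (S.W l).cl X y ≠ 0) :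
    0 < (-1 : ℚ) ^ j * pairing ops X D j y y := by
  classical
  set W := S.W l with hW
  obtain ⟨e, he, hep, heo, hepos⟩ := hpos
  have hr := mult_pos hq hX Sp l hl a hy hyp hne
  have hsgn : (-1 : ℚ) ^ j ≠ 0 := pow_ne_zero _ (by norm_num)
  have hee : ∀ i, pairing ops X D j (e i) (e i) ≠ 0 := fun i h0 => by
    have := hepos i
    rw [h0, mul_zero] at this
    exact lt_irrefl _ this
  let c : Fin (Sp.mult a - 1) → ℚ := fun i => pairing ops X D j y (e i) / pairing ops X D j (e i) (e i)
  let w : X.Cycles := y + (-1 : ℚ) • ∑ i, c i • e i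
  have hsum : X.IsCyc j (∑ i, c i • e i) := by
    have : ∀ s : Finset (Fin (Sp.mult a - 1)), X.IsCyc j (∑ i ∈ s, c i • e i) := by
      intro s
      induction s using Finset.induction_on with
      | empty => rw [Finset.sum_empty]; exact SmVar.IsCyc.zero _ _
      | insert i s hi ih =>
        rw [Finset.sum_insert hi]
        exact SmVar.IsCyc.add (SmVar.IsCyc.smul _ (he i)) ih
    exact this _
  have hw : X.IsCyc j w := SmVar.IsCyc.add hy (SmVar.IsCyc.smul _ hsum)
  have hwcl : W.cl X w = W.cl X y - ∑ i, (c i : W.K) • W.cl X (e i) := by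
    change W.cl X (y + (-1 : ℚ) • ∑ i, c i • e i) = _
    rw [map_add, cl_smul, map_sum]
    simp only [cl_smul]
    push_cast
    rw [neg_one_smul, sub_eq_add_neg]
  have hwp : W.cl X w ∈ piece W X D j (Sp.corr a) := by
    rw [hwcl]
    exact Submodule.sub_mem _ hyp (Submodule.sum_mem _ fun i _ => Submodule.smul_mem _ _ (hep i))
  -- the class `w` is orthogonal to the classes `e i`
  have hwe : ∀ i, hform W X D j (W.cl X w) (W.cl X (e i)) = 0 := by
    intro i
    rw [hwcl, map_sub, LinearMap.sub_apply, LinearMap.map_sum₂, Finset.sum_eq_single i]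
    · rw [map_smul, LinearMap.smul_apply, ← pairing_cast hD hj hy (he i),
        ← pairing_cast hD hj (he i) (he i), smul_eq_mul, ← Rat.cast_mul,
        div_mul_cancel₀ _ (hee i), sub_self]
    · intro i' _ hi'
      rw [map_smul, LinearMap.smul_apply, ← pairing_cast hD hj (he i') (he i), heo i' i hi',
        Rat.cast_zero, smul_zero]
    · intro hi
      exact absurd (Finset.mem_univ i) hi
  have hew : ∀ i, hform W X D j (W.cl X (e i)) (W.cl X w) = 0 := fun i => by
    rw [hform_symm (W.cl_mem (he i)), hwe]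
  have hycl : W.cl X y = W.cl X w + ∑ i, (c i : W.K) • W.cl X (e i) := by
    rw [hwcl, sub_add_cancel]
  have hyy : pairing ops X D j y y =
      pairing ops X D j w w + ∑ i, c i ^ 2 * pairing ops X D j (e i) (e i) := by
    have h1 := pairing_cast (W := W) hD hj hy hy
    rw [hycl, form_expand] at h1
    have h2 : hform W X D j (∑ i, (c i : W.K) • W.cl X (e i)) (W.cl X w) = 0 := by
      rw [LinearMap.map_sum₂]
      exact Finset.sum_eq_zero fun i _ => by
        rw [map_smul, LinearMap.smul_apply, hew, smul_zero]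
    have h3 : hform W X D j (W.cl X w) (∑ i, (c i : W.K) • W.cl X (e i)) = 0 := by
      rw [map_sum]
      exact Finset.sum_eq_zero fun i _ => by rw [map_smul, hwe, smul_zero]
    have h4 : hform W X D j (∑ i, (c i : W.K) • W.cl X (e i))
        (∑ i, (c i : W.K) • W.cl X (e i)) =
        ((∑ i, c i ^ 2 * pairing ops X D j (e i) (e i) : ℚ) : W.K) := by
      rw [LinearMap.map_sum₂, Rat.cast_sum]
      apply Finset.sum_congr rfl
      intro i _
      rw [map_smul, LinearMap.smul_apply, map_sum, Finset.sum_eq_single i]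
      · rw [map_smul, ← pairing_cast hD hj (he i) (he i)]
        push_cast
        rw [smul_eq_mul, smul_eq_mul]
        ring
      · intro i' _ hi'
        rw [map_smul, ← pairing_cast hD hj (he i) (he i'), heo i i' (Ne.symm hi'),
          Rat.cast_zero, smul_zero]
      · intro hi
        exact absurd (Finset.mem_univ i) hi
    rw [h2, h3, h4, zero_add, add_zero, ← pairing_cast hD hj hw hw, ← Rat.cast_add] at h1
    exact_mod_cast h1
  have hnn : ∀ i, 0 ≤ (-1 : ℚ) ^ j * (c i ^ 2 * pairing ops X D j (e i) (e i)) := fun i => by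
    have := mul_nonneg (sq_nonneg (c i)) (hepos i).le
    linarith [mul_left_comm ((-1 : ℚ) ^ j) (c i ^ 2) (pairing ops X D j (e i) (e i))]
  rw [hyy, mul_add, Finset.mul_sum]
  by_cases hw0 : W.cl X w = 0
  · have h1 := pairing_cast (W := W) hD hj hw hw
    rw [hw0, map_zero, Rat.cast_eq_zero] at h1
    rw [h1, mul_zero, zero_add]
    obtain ⟨i, hi⟩ : ∃ i, c i ≠ 0 := by
      by_contra hall
      push Not at hall
      apply hne
      rw [hycl, hw0, zero_add]
      exact Finset.sum_eq_zero fun i _ => by rw [hall i, Rat.cast_zero, zero_smul]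
    refine Finset.sum_pos' (fun i _ => hnn i) ⟨i, Finset.mem_univ i, ?_⟩
    have := mul_pos (pow_pos (sq_pos_of_ne_zero hi) 1) (hepos i)
    rw [pow_one] at this
    linarith [mul_left_comm ((-1 : ℚ) ^ j) (c i ^ 2) (pairing ops X D j (e i) (e i))]
  · have hpw : 0 < (-1 : ℚ) ^ j * pairing ops X D j w w := by
      have h1 := parity_fintype hD hq hX hj Sp l hl a (ι := Option (Fin (Sp.mult a - 1)))
        (by rw [Fintype.card_option, Fintype.card_fin]; omega)
        (fun o => o.elim w e) (fun o => by cases o <;> [exact hw; exact he _])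
        (fun o => by cases o <;> [exact hwp; exact hep _])
        (by
          rw [Fintype.linearIndependent_iff]
          intro g hg
          rw [Fintype.sum_option] at hg
          change g none • W.cl X w + ∑ i, g (some i) • W.cl X (e i) = 0 at hg
          have h1 : ∀ i, g (some i) = 0 := by
            intro i
            have h2 := congrArg (fun x => hform W X D j x (W.cl X (e i))) hg
            simp only [map_add, LinearMap.add_apply, map_smul, LinearMap.smul_apply, hwe, smul_zero,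
              zero_add, map_zero, LinearMap.zero_apply] at h2
            rw [LinearMap.map_sum₂, Finset.sum_eq_single i] at h2
            · rw [map_smul, LinearMap.smul_apply, ← pairing_cast hD hj (he i) (he i),
                smul_eq_mul] at h2
              rcases mul_eq_zero.1 h2 with h3 | h3
              · exact h3
              · exact absurd (Rat.cast_eq_zero.1 h3) (hee i)
            · intro i' _ hi'
              rw [map_smul, LinearMap.smul_apply, ← pairing_cast hD hj (he i') (he i),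
                heo i' i hi', Rat.cast_zero, smul_zero]
            · intro hi
              exact absurd (Finset.mem_univ i) hi
          have h2 : g none = 0 := by
            simp only [h1, zero_smul, Finset.sum_const_zero, add_zero] at hg
            exact (smul_eq_zero.1 hg).resolve_right hw0
          intro o
          cases o with
          | none => exact h2
          | some i => exact h1 i)
        (fun o o' hoo => by
          cases o with
          | none =>
            cases o' with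
            | none => exact absurd rfl hoo
            | some i =>
              have h3 := pairing_cast (W := W) hD hj hw (he i)
              rw [hwe] at h3
              exact_mod_cast h3
          | some i =>
            cases o' with
            | none =>
              have h3 := pairing_cast (W := W) hD hj (he i) hw
              rw [hew] at h3
              exact_mod_cast h3
            | some i' => exact heo i i' fun h => hoo (by rw [h]))
      rw [Fintype.prod_option] at h1
      exact (mul_pos_iff_of_pos_right (Finset.prod_pos fun i _ => hepos i)).1 h1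
    exact add_pos_of_pos_of_nonneg hpw (Finset.sum_nonneg fun i _ => hnn i)

/-- **The standard conjecture of Hodge type, if on each piece all but at most one of the Frobenius
eigenvalues of Tate type are explained by algebraic classes with the right signs.** -/
theorem hodge_of_hasPositive (hD : X.IsCyc 1 D) (hq : 0 < q)
    (hX : ∀ l : Nat.Primes, (l : ℕ) ≠ p → IsFrobenius (S.W l) X D f q ∧ LefschetzA (S.W l) X D)
    (Sp : ∀ j, 2 * j ≤ X.dim → Splitting S X D f q j) (l : Nat.Primes) (hl : (l : ℕ) ≠ p)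
    (hP : ∀ j hj a, HasPositive (S.W l) X D j ((Sp j hj).corr a) ((Sp j hj).mult a)) :
    HodgeType (S.W l) X D := by
  classical
  intro j hj z hz hprim hne
  set T := Sp j hj with hT
  have hzprim : (S.W l).cl X z ∈ prim (S.W l) X D j := by
    refine ⟨(S.W l).cl_mem hz, ?_⟩
    change (S.W l).cl X D ^ (X.dim - 2 * j + 1) * (S.W l).cl X z = 0
    rw [← cl_divPow]
    exact hprim
  -- the components
  let y : Fin T.num → X.Cycles := fun i => act ops (T.corr i) z
  have hy : ∀ i, X.IsCyc j (y i) := fun i => act_isCyc (T.isCyc i) hz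
  have hycl : ∀ i, (S.W l).cl X (y i) = (S.W l).corr ((S.W l).cl _ (T.corr i)) ((S.W l).cl X z) :=
    fun i => act_cl _ _
  have hyp : ∀ i, (S.W l).cl X (y i) ∈ piece (S.W l) X D j (T.corr i) := fun i => by
    rw [hycl]
    exact ⟨_, hzprim, rfl⟩
  have hsum : (S.W l).cl X z = ∑ i, (S.W l).cl X (y i) := by
    rw [← T.sum l hl _ hzprim]
    exact Finset.sum_congr rfl fun i _ => (hycl i).symm
  have horth : ∀ i i', i ≠ i' →
      hform (S.W l) X D j ((S.W l).cl X (y i)) ((S.W l).cl X (y i')) = 0 := by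
    intro i i' hii
    rw [hycl, hycl, (T.isProj l hl i).adj _ hzprim _ ((T.isProj l hl i').mem _ hzprim),
      T.orth l hl _ hzprim i i' hii, map_zero]
  have hdec : pairing ops X D j z z = ∑ i, pairing ops X D j (y i) (y i) := by
    have h1 := pairing_cast (W := S.W l) hD hj hz hz
    rw [hsum, LinearMap.map_sum₂] at h1
    have h2 : ∀ i, hform (S.W l) X D j ((S.W l).cl X (y i)) (∑ i', (S.W l).cl X (y i')) =
        ((pairing ops X D j (y i) (y i) : ℚ) : (S.W l).K) := by
      intro i
      rw [map_sum, Finset.sum_eq_single i]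
      · exact (pairing_cast (W := S.W l) hD hj (hy i) (hy i)).symm
      · intro i' _ hi'
        exact horth i i' (Ne.symm hi')
      · intro hi; exact absurd (Finset.mem_univ i) hi
    rw [Finset.sum_congr rfl fun i _ => h2 i, ← Rat.cast_sum] at h1
    exact_mod_cast h1
  have hpos : ∀ i, (S.W l).cl X (y i) ≠ 0 →
      0 < (-1 : ℚ) ^ j * pairing ops X D j (y i) (y i) := fun i hi =>
    pos_of_hasPositive hD hq hX hj T l hl i (hP j hj i) (hy i) (hyp i) hi
  change 0 < (-1 : ℚ) ^ j * pairing ops X D j z z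
  rw [hdec, Finset.mul_sum]
  have hnn : ∀ i, 0 ≤ (-1 : ℚ) ^ j * pairing ops X D j (y i) (y i) := by
    intro i
    by_cases hi : (S.W l).cl X (y i) = 0
    · have h1 := pairing_cast (W := S.W l) hD hj (hy i) (hy i)
      rw [hi, map_zero, Rat.cast_eq_zero] at h1
      rw [h1, mul_zero]
    · exact (hpos i hi).le
  obtain ⟨i, hi⟩ : ∃ i, (S.W l).cl X (y i) ≠ 0 := by
    by_contra hall
    push Not at hall
    apply hne
    rw [hsum]
    exact Finset.sum_eq_zero fun i _ => hall i
  exact Finset.sum_pos' (fun i _ => hnn i) ⟨i, Finset.mem_univ i, hpos i hi⟩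

end final

end Pool.Agent.H934.PA
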