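import Pool.Agent.H934.PA.Defs2
import Pool.Agent.H934.PA.Main

/-!
# The comparison of the definitions
-/

open CategoryTheory AlgebraicGeometry Module

universe u v

namespace Pool.Agent.H934.Lift

open Pool.Agent.H914 Pool.Agent.H914.VarClass Pool.Agent.H914.VarClass.Obj
  Pool.Agent.H914.WeilCohomology

variable {k : Type u} [Field k] {𝒱 : VarClass k} {ops : CycleOps 𝒱}

section

variable {W : WeilCohomology.{u, v} ops} {X : 𝒱.Obj} {D : X.Cycles} {j : ℕ}

lemma mem_prim {a : W.H X} : a ∈ PA.prim W X D j ↔ IsPrim W X D j a := Iff.rfl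

lemma hform_eq (a b : W.H X) : PA.hform W X D j a b = form W X D j a b := rfl

lemma act_eq (c : (X.prod X).Cycles) (a : W.H X) : W.corr (W.cl _ c) a = act W c a := rfl

lemma pairing_eq (z w : X.Cycles) : PA.pairing ops X D j z w = pairing ops X D j z w := rfl

variable {f : X ⟶ X} {q : ℕ}

lemma IsFrobenius.toPA (h : IsFrobenius W X D f q) : PA.IsFrobenius W X D f q where
  div := by
    have := h.div
    rw [IsMultiple, W.cl_pull, cl_smul] at this
    rw [this]
    push_cast
    rfl
  degree := by
    have := h.degree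
    rw [IsMultiple, W.cl_push, W.cl_fund, cl_smul, W.cl_fund] at this
    rw [this]
    push_cast
    rfl
  cycles := h.cycles

variable {c : (X.prod X).Cycles}

lemma IsProj.toPA (h : IsProj W X D f j c) : PA.IsProj W X D f j c where
  mem := h.mem
  idem := h.idem
  adj := fun a ha b hb => h.adj a b ha hb
  comm := h.comm

lemma mem_piece (h : IsProj W X D f j c) {a : W.H X} :
    a ∈ PA.piece W X D j c ↔ IsPrim W X D j a ∧ act W c a = a := by
  constructor
  · intro ha
    exact ⟨PA.piece_le h.toPA ha, PA.corr_piece h.toPA ha⟩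
  · rintro ⟨h1, h2⟩
    exact ⟨a, h1, h2⟩

variable {d : ℕ} {G : Matrix (Fin d) (Fin d) ℚ} {P : Polynomial ℚ}

lemma symm_of_realizes (h : Realizes W X D f j c G P) : G.transpose = G := by
  obtain ⟨-, b, hb, -, hG⟩ := h
  ext i i'
  have h1 : ((G i' i : ℚ) : W.K) = ((G i i' : ℚ) : W.K) := by
    rw [← hG, ← hG]
    exact PA.hform_symm (hb.1 i').1.1
  exact_mod_cast h1

lemma exists_basis (h : Realizes W X D f j c G P) (hdet : G.det ≠ 0) :
    PA.HasGram W X D j c G ∧ PA.HasCharpoly W X f (PA.piece W X D j c) P := by
  classical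
  obtain ⟨hc, b, hb, ⟨M, hM, hchar⟩, hG⟩ := h
  have hmem : ∀ i, b i ∈ PA.piece W X D j c := fun i => (mem_piece hc).2 (hb.1 i)
  let b' : Fin d → PA.piece W X D j c := fun i => ⟨b i, hmem i⟩
  have hli : LinearIndependent W.K b' := by
    rw [Fintype.linearIndependent_iff]
    intro t ht
    have h1 : ∑ i, t i • b i = 0 := by
      have := congrArg (PA.piece W X D j c).subtype ht
      rw [map_sum, map_zero] at this
      simpa using this
    have h2 : Matrix.vecMul t (G.map (Rat.cast : ℚ → W.K)) = 0 := by
      funext i'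
      have h3 := congrArg (fun x => PA.hform W X D j x (b i')) h1
      simp only [map_zero, LinearMap.zero_apply] at h3
      rw [LinearMap.map_sum₂] at h3
      rw [Pi.zero_apply, ← h3, Matrix.vecMul, dotProduct]
      apply Finset.sum_congr rfl
      intro i _
      rw [map_smul, LinearMap.smul_apply, hform_eq, hG, smul_eq_mul]
      rfl
    have h4 : (G.map (Rat.cast : ℚ → W.K)).det ≠ 0 := by
      have h5 : (G.map (Rat.cast : ℚ → W.K)).det = ((G.det : ℚ) : W.K) :=
        ((Rat.castHom W.K).map_det G).symm
      rw [h5]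
      exact_mod_cast hdet
    have h6 : t = 0 := Matrix.eq_zero_of_vecMul_eq_zero h4 h2
    intro i
    rw [h6]
    rfl
  have hspan : ⊤ ≤ Submodule.span W.K (Set.range b') := by
    rintro ⟨a, ha⟩ -
    obtain ⟨h1, h2⟩ := (mem_piece hc).1 ha
    obtain ⟨t, ht⟩ := hb.2 a h1 h2
    rw [Submodule.mem_span_range_iff_exists_fun]
    refine ⟨t, ?_⟩
    apply Subtype.ext
    have h3 : ((∑ i, t i • b' i : PA.piece W X D j c) : W.H X) = ∑ i, t i • b i :=
      map_sum (PA.piece W X D j c).subtype (fun i => t i • b' i) Finset.univ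
    rw [h3]
    exact ht.symm
  let B : Basis (Fin d) W.K (PA.piece W X D j c) := Basis.mk hli hspan
  have hB : ∀ i, B i = b' i := fun i => by
    change (Basis.mk hli hspan) i = b' i
    rw [Basis.mk_apply]
  refine ⟨⟨B, fun i i' => ?_⟩, ?_, ?_⟩
  · rw [hB, hB]
    exact hG i i'
  · intro a ha
    have h1 : (⟨a, ha⟩ : PA.piece W X D j c) ∈ Submodule.span W.K (Set.range b') :=
      hspan Submodule.mem_top
    rw [Submodule.mem_span_range_iff_exists_fun] at h1
    obtain ⟨t, ht⟩ := h1
    have h2 : ∑ i, t i • b i = a := by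
      have := congrArg (PA.piece W X D j c).subtype ht
      rw [map_sum] at this
      simpa using this
    rw [← h2, map_sum]
    refine Submodule.sum_mem _ fun i _ => ?_
    rw [map_smul]
    refine Submodule.smul_mem _ _ ?_
    have h3 : (W.map f).toLinearMap (b i) = comb W (fun i' => M i' i) b := hM i
    rw [h3, comb]
    exact Submodule.sum_mem _ fun i' _ => Submodule.smul_mem _ _ (hmem i')
  · rw [← LinearMap.charpoly_toMatrix _ B, ← hchar]
    congr 1
    ext i i'
    rw [LinearMap.toMatrix_apply]
    have h3 : ((W.map f).toLinearMap.restrict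
        (p := PA.piece W X D j c) (q := PA.piece W X D j c) (by
        intro a ha
        have h1 : (⟨a, ha⟩ : PA.piece W X D j c) ∈ Submodule.span W.K (Set.range b') :=
          hspan Submodule.mem_top
        rw [Submodule.mem_span_range_iff_exists_fun] at h1
        obtain ⟨t, ht⟩ := h1
        have h2 : ∑ i, t i • b i = a := by
          have := congrArg (PA.piece W X D j c).subtype ht
          rw [map_sum] at this
          simpa using this
        rw [← h2, map_sum]
        refine Submodule.sum_mem _ fun i _ => ?_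
        rw [map_smul]
        refine Submodule.smul_mem _ _ ?_
        have h3 : (W.map f).toLinearMap (b i) = comb W (fun i' => M i' i) b := hM i
        rw [h3, comb]
        exact Submodule.sum_mem _ fun i' _ => Submodule.smul_mem _ _ (hmem i'))) (B i') =
        ∑ i'', M i'' i' • B i'' := by
      apply Subtype.ext
      have h4 : ((∑ i'', M i'' i' • b' i'' : PA.piece W X D j c) : W.H X) =
          ∑ i'', M i'' i' • b i'' :=
        map_sum (PA.piece W X D j c).subtype (fun i'' => M i'' i' • b' i'') Finset.univ
      simp only [hB]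
      rw [h4]
      exact hM i'
    rw [h3, map_sum, Finsupp.finsetSum_apply]
    simp only [map_smul, Finsupp.smul_apply, Basis.repr_self, Finsupp.single_apply, smul_eq_mul,
      mul_ite, mul_one, mul_zero, Finset.sum_ite_eq', Finset.mem_univ, if_true]

lemma HasPositive.toPA (hc : IsProj W X D f j c) {r : ℕ} (h : HasPositive W X D j c r) :
    PA.HasPositive W X D j c r := by
  obtain ⟨z, hz, h1, h2⟩ := h
  exact ⟨z, fun i => (hz i).1, fun i => (mem_piece hc).2 (hz i).2, h1, h2⟩

end

variable {p : ℕ} {S : LadicSystem.{u, v} ops p} {X : 𝒱.Obj} {D : X.Cycles} {f : X ⟶ X} {q j : ℕ}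

/-- The system in the sense of the first set of definitions. -/
def LadicSystem.toPA (S : LadicSystem.{u, v} ops p) : PA.LadicSystem.{u, v} ops p where
  W := S.W
  iso := S.iso

/-- The splitting in the sense of the first set of definitions. -/
noncomputable def Splitting.toPA (Sp : Splitting S X D f q j) (l : Nat.Primes) (hl : (l : ℕ) ≠ p) :
    PA.Splitting S.toPA X D f q j := by
  have hsymm : ∀ i, (Sp.piece i).gram.transpose = (Sp.piece i).gram := fun i =>
    symm_of_realizes ((Sp.piece i).realizes l hl)
  have hdet : ∀ i, (Sp.piece i).gram.det ≠ 0 := fun i h0 => by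
    have := (Sp.piece i).signs.sign (hsymm i)
    rw [h0, mul_zero] at this
    exact lt_irrefl _ this
  exact {
    num := Sp.num
    corr := fun i => (Sp.piece i).corr
    rank := fun i => (Sp.piece i).rank
    gram := fun i => (Sp.piece i).gram
    mult := fun i => (Sp.piece i).mult
    rest := fun i => (Sp.piece i).rest
    isCyc := fun i => (Sp.piece i).isCyc
    symm := hsymm
    signs := fun i => (Sp.piece i).signs
    monic := fun i => (Sp.piece i).monic
    weil := fun i => (Sp.piece i).weil
    isProj := fun l hl i => ((Sp.piece i).realizes l hl).1.toPA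
    hasGram := fun l hl i => (exists_basis ((Sp.piece i).realizes l hl) (hdet i)).1
    hasCharpoly := fun l hl i => (exists_basis ((Sp.piece i).realizes l hl) (hdet i)).2
    sum := Sp.sum
    orth := Sp.orth }

/-- **The standard conjecture of Hodge type, if on each piece all but at most one of the Frobenius
eigenvalues of Tate type are explained by algebraic classes with the right signs.** -/
theorem hodge_of_hasPositive (hD : X.IsCyc 1 D) (hq : 0 < q)
    (hX : ∀ l : Nat.Primes, (l : ℕ) ≠ p → IsFrobenius (S.W l) X D f q ∧ LefschetzA (S.W l) X D)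
    (Sp : ∀ j, 2 * j ≤ X.dim → Splitting S X D f q j) (l : Nat.Primes) (hl : (l : ℕ) ≠ p)
    (hP : ∀ j hj i, HasPositive (S.W l) X D j ((Sp j hj).piece i).corr ((Sp j hj).piece i).mult) :
    HodgeType (S.W l) X D := by
  apply PA.hodge_of_hasPositive (S := S.toPA) hD hq (fun l hl => ⟨(hX l hl).1.toPA, (hX l hl).2⟩)
    (fun j hj => (Sp j hj).toPA l hl) l hl
  intro j hj i
  exact (hP j hj i).toPA (((Sp j hj).piece i).realizes l hl).1

end Pool.Agent.H934.Lift
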