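import Pool.Agent.H934.PA.Bridge
import Pool.Agent.H934.PA.DInf

/-!
# Homological and numerical equivalence for a positive density of prime numbers `ℓ`
-/

open CategoryTheory AlgebraicGeometry Module

universe u v

namespace Pool.Agent.H934.Lift

open Pool.Agent.H914 Pool.Agent.H914.VarClass Pool.Agent.H914.VarClass.Obj
  Pool.Agent.H914.WeilCohomology

variable {k : Type u} [Field k] {𝒱 : VarClass k} {ops : CycleOps 𝒱}
variable {p : ℕ} {S : LadicSystem.{u, v} ops p} {X : 𝒱.Obj} {D : X.Cycles} {f : X ⟶ X} {q : ℕ}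

/-- **Homological and numerical equivalence coincide for a positive density of `ℓ`**, if on each piece all
but at most two of the Frobenius eigenvalues of Tate type are explained by algebraic classes with the
right signs. -/
theorem exists_modulus_homEqNum (hD : X.IsCyc 1 D) (hq : 0 < q)
    (hX : ∀ l : Nat.Primes, (l : ℕ) ≠ p → IsFrobenius (S.W l) X D f q ∧ LefschetzA (S.W l) X D)
    (Sp : ∀ j, 2 * j ≤ X.dim → Splitting S X D f q j) (l₀ : Nat.Primes) (hl₀ : (l₀ : ℕ) ≠ p)
    (hP : ∀ j hj i,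
      HasPositive (S.W l₀) X D j ((Sp j hj).piece i).corr (((Sp j hj).piece i).mult - 1)) :
    ∃ M : ℕ, 0 < M ∧ ∀ l : Nat.Primes, (l : ℕ) ≠ p → (l : ℕ) % (4 * M) = 4 * M - 1 →
      HomEqNum (S.W l) X := by
  apply PA.exists_modulus_homEqNum (S := S.toPA) hD hq
    (fun l hl => ⟨(hX l hl).1.toPA, (hX l hl).2⟩) (fun j hj => (Sp j hj).toPA l₀ hl₀) l₀ hl₀
  intro j hj i
  exact (hP j hj i).toPA (((Sp j hj).piece i).realizes l₀ hl₀).1

end Pool.Agent.H934.Lift
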