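import Pool.Agent.H604R2.LEC.Pf

/-!
# The discriminant of a quadratic space with an isometry without the eigenvalues `1` and `-1`
-/

open Matrix Polynomial Module

namespace Pool.Agent.H934.PA

variable {K : Type*} [Field K] [CharZero K]

/-- The determinant of a skew-symmetric matrix is a square. -/
lemma isSquare_det_skew {t : ℕ} {A : Matrix (Fin t) (Fin t) K} (hA : Aᵀ = -A) :
    IsSquare A.det := by
  have h1 : ∀ i j, A i j = - A j i := fun i j => by
    have := congrFun (congrFun hA j) i
    rwa [transpose_apply, neg_apply] at this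
  have h0 : ∀ i, A i i = 0 := fun i => by
    have := h1 i i
    exact self_eq_neg.1 this
  rw [Pool.Agent.H604R2.LEC.eq_skew A h1 h0, ← Pool.Agent.H604R2.LEC.pf_sq_ring, pow_two]
  exact ⟨_, rfl⟩

/-- A skew-symmetric matrix of odd size is singular. -/
lemma det_skew_odd {t : ℕ} (ht : Odd t) {A : Matrix (Fin t) (Fin t) K} (hA : Aᵀ = -A) :
    A.det = 0 := by
  have h1 : A.det = - A.det := by
    conv_lhs => rw [← det_transpose, hA, det_neg, Fintype.card_fin, ht.neg_one_pow, neg_one_mul]
  exact self_eq_neg.1 h1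

/-- **The discriminant of a quadratic space with an isometry (up to a scalar) without the
eigenvalues `lam` and `- lam`** (Zassenhaus). -/
theorem disc_isometry {t : ℕ} {M G : Matrix (Fin t) (Fin t) K} {lam : K} (hlam : lam ≠ 0)
    (hG : Gᵀ = G) (hM : Mᵀ * G * M = lam ^ 2 • G) (hdet : G.det ≠ 0)
    (h1 : M.charpoly.eval lam ≠ 0) (h2 : M.charpoly.eval (-lam) ≠ 0) :
    Even t ∧ IsSquare (G.det * (M.charpoly.eval lam * M.charpoly.eval (-lam))) := by
  classical
  -- the determinant of `M`
  have hMdet : M.det ^ 2 = (lam ^ 2) ^ t := by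
    have h3 := congrArg det hM
    rw [det_mul, det_mul, det_transpose, det_smul, Fintype.card_fin] at h3
    have h4 : (M.det ^ 2 - (lam ^ 2) ^ t) * G.det = 0 := by linear_combination h3
    exact sub_eq_zero.1 ((mul_eq_zero.1 h4).resolve_right hdet)
  have hMne : M.det ≠ 0 := by
    intro h0
    rw [h0, zero_pow two_ne_zero] at hMdet
    exact pow_ne_zero t (pow_ne_zero 2 hlam) hMdet.symm
  have hgram : (M * M - lam ^ 2 • (1 : Matrix (Fin t) (Fin t) K))ᵀ * G * M =
      lam ^ 2 • (Mᵀ * G - G * M) := by
    rw [transpose_sub, transpose_mul, transpose_smul, transpose_one, sub_mul, sub_mul,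
      Matrix.mul_assoc, Matrix.mul_assoc, Matrix.mul_assoc, ← Matrix.mul_assoc Mᵀ G M, hM, Matrix.mul_smul,
      Matrix.smul_mul, Matrix.one_mul]
    exact (smul_sub _ _ _).symm
  have hskew : (Mᵀ * G - G * M)ᵀ = -(Mᵀ * G - G * M) := by
    rw [transpose_sub, transpose_mul, transpose_mul, transpose_transpose, hG, neg_sub]
  have hfac : (M * M - lam ^ 2 • (1 : Matrix (Fin t) (Fin t) K)).det =
      M.charpoly.eval lam * M.charpoly.eval (-lam) := by
    rw [eval_charpoly, eval_charpoly, ← det_mul]
    congr 1
    have e1 : ∀ a : K, scalar (Fin t) a = a • (1 : Matrix (Fin t) (Fin t) K) := fun a => by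
      ext i j
      simp [Matrix.one_apply, Matrix.diagonal_apply]
    rw [e1, e1]
    simp only [sub_mul, mul_sub, smul_mul_assoc, mul_smul_comm, one_mul, mul_one, neg_smul,
      mul_neg]
    module
  have hkey : (M.charpoly.eval lam * M.charpoly.eval (-lam)) * G.det * M.det =
      (lam ^ 2) ^ t * (Mᵀ * G - G * M).det := by
    have h3 := congrArg det hgram
    rw [det_mul, det_mul, det_transpose, hfac, det_smul, Fintype.card_fin] at h3
    exact h3
  have heven : Even t := by
    by_contra hodd
    rw [Nat.not_even_iff_odd] at hodd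
    rw [det_skew_odd hodd hskew, mul_zero] at hkey
    exact mul_ne_zero (mul_ne_zero (mul_ne_zero h1 h2) hdet) hMne hkey
  -- the sign of the determinant of `M`
  have hMt : M.det = lam ^ t := by
    have e2 : (scalar (Fin t) lam - M)ᵀ * G * M = lam • (G * (M - scalar (Fin t) lam)) := by
      have e3 : scalar (Fin t) lam = lam • (1 : Matrix (Fin t) (Fin t) K) := by
        ext i j
        simp [Matrix.one_apply, Matrix.diagonal_apply]
      rw [e3, transpose_sub, transpose_smul, transpose_one, sub_mul, sub_mul, hM]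
      simp only [mul_sub, Matrix.smul_mul, Matrix.mul_smul, Matrix.one_mul, Matrix.mul_one,
        smul_sub, smul_smul, pow_two]
    have h3 := congrArg det e2
    have h5 : (M - scalar (Fin t) lam).det = (scalar (Fin t) lam - M).det := by
      rw [← neg_sub (scalar (Fin t) lam) M, det_neg, Fintype.card_fin, heven.neg_one_pow, one_mul]
    rw [det_mul, det_mul, det_transpose, det_smul, Fintype.card_fin, det_mul, h5,
      ← eval_charpoly] at h3
    have h4 : (M.charpoly.eval lam * G.det) * (M.det - lam ^ t) = 0 := by linear_combination h3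
    exact sub_eq_zero.1 ((mul_eq_zero.1 h4).resolve_left (mul_ne_zero h1 hdet))
  obtain ⟨c, hc⟩ := isSquare_det_skew hskew
  refine ⟨heven, ?_⟩
  obtain ⟨u, hu⟩ := heven
  refine ⟨lam ^ u * c, ?_⟩
  have hne : lam ^ t ≠ 0 := pow_ne_zero t hlam
  apply mul_right_cancel₀ hne
  rw [hMt, hc] at hkey
  have e4 : (lam ^ 2) ^ t = lam ^ t * (lam ^ u * lam ^ u) := by
    rw [← pow_add, ← hu, ← pow_add, ← pow_mul]
    congr 1
    omega
  rw [e4] at hkey
  linear_combination hkey

section

variable {U : Type*} [AddCommGroup U] [Module K U] [FiniteDimensional K U]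

/-- **The discriminant of a quadratic space with an isometry (up to a scalar) and an orthogonal family
of eigenvectors.** -/
theorem disc_eigen (B : LinearMap.BilinForm K U) (hB : ∀ x y, B x y = B y x) (F : Module.End K U)
    {lam : K} (hlam : lam ≠ 0) (hF : ∀ x y, B (F x) (F y) = lam ^ 2 * B x y) {r d : ℕ}
    (x : Fin r → U) (hx : ∀ i, F (x i) = lam • x i) (horth : ∀ i j, i ≠ j → B (x i) (x j) = 0)
    (hne : ∀ i, B (x i) (x i) ≠ 0) {g : K[X]} (hchar : F.charpoly = (X - C lam) ^ r * g)
    (h1 : g.eval lam ≠ 0) (h2 : g.eval (-lam) ≠ 0) (b : Basis (Fin d) K U)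
    {G : Matrix (Fin d) (Fin d) K} (hG : ∀ i j, G i j = B (b i) (b j)) (hdet : G.det ≠ 0) :
    (∃ t, Even t ∧ d = r + t) ∧
      IsSquare (G.det * (∏ i, B (x i) (x i)) * (g.eval lam * g.eval (-lam))) := by
  classical
  -- the orthogonal complement of the eigenvectors
  let T : Submodule K U := ⨅ i, LinearMap.ker (B (x i))
  have hT : ∀ y, y ∈ T ↔ ∀ i, B (x i) y = 0 := by
    intro y
    simp [T, Submodule.mem_iInf]
  -- the equivalence
  let co : U →ₗ[K] (Fin r → K) := LinearMap.pi fun i => (B (x i) (x i))⁻¹ • B (x i)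
  have hco : ∀ y i, co y i = (B (x i) (x i))⁻¹ * B (x i) y := fun y i => rfl
  let ι : (Fin r → K) →ₗ[K] U := Fintype.linearCombination K x
  have hι : ∀ c, ι c = ∑ i, c i • x i := fun c => rfl
  have hBι : ∀ i c, B (x i) (ι c) = c i * B (x i) (x i) := by
    intro i c
    rw [hι, map_sum, Finset.sum_eq_single i]
    · rw [map_smul, smul_eq_mul]
    · intro j _ hj
      rw [map_smul, horth i j (Ne.symm hj), smul_zero]
    · intro hi; exact absurd (Finset.mem_univ i) hi
  have hcoι : ∀ c, co (ι c) = c := by
    intro c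
    funext i
    rw [hco, hBι, mul_comm (c i), ← mul_assoc, inv_mul_cancel₀ (hne i), one_mul]
  have hcoT : ∀ y : T, co y = 0 := by
    intro y
    funext i
    rw [hco, (hT _).1 y.2 i, mul_zero]
    rfl
  have hTmem : ∀ y, y - ι (co y) ∈ T := by
    intro y
    rw [hT]
    intro i
    rw [map_sub, hBι, hco]
    field_simp [hne i]
    ring
  let e : ((Fin r → K) × T) ≃ₗ[K] U :=
    LinearEquiv.ofLinearMap (ι.coprod T.subtype)
      (co.prod ((LinearMap.id - ι ∘ₗ co).codRestrict T hTmem))
      (by
        apply LinearMap.ext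
        intro y
        simp)
      (by
        apply LinearMap.ext
        rintro ⟨c, y⟩
        have h3 : co (ι c + (y : U)) = c := by rw [map_add, hcoι, hcoT, add_zero]
        apply Prod.ext
        · simpa using h3
        · apply Subtype.ext
          simp [h3, hcoι, hcoT])
  have he : ∀ c y, e (c, y) = ι c + (y : U) := fun c y => rfl
  -- the isometry
  have hFT : ∀ y ∈ T, F y ∈ T := by
    intro y hy
    rw [hT] at hy ⊢
    intro i
    have h3 := hF (x i) y
    rw [hx, map_smul, LinearMap.smul_apply, hy, mul_zero, smul_eq_mul] at h3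
    exact (mul_eq_zero.1 h3).resolve_left hlam
  let FT : Module.End K T := F.restrict hFT
  have hFι : ∀ c, F (ι c) = lam • ι c := by
    intro c
    rw [hι, map_sum, Finset.smul_sum]
    apply Finset.sum_congr rfl
    intro i _
    rw [map_smul, hx, smul_comm]
  have hconj : e.conj ((lam • LinearMap.id : Module.End K (Fin r → K)).prodMap FT) = F := by
    apply LinearMap.ext
    intro z
    obtain ⟨⟨c, y⟩, rfl⟩ := e.surjective z
    rw [LinearEquiv.conj_apply]
    simp only [LinearMap.comp_apply, LinearEquiv.coe_coe, LinearEquiv.symm_apply_apply,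
      LinearMap.prodMap_apply]
    rw [he, he, map_add, hFι]
    simp [FT, map_smul]
  have hchar2 : FT.charpoly = g := by
    have h3 : F.charpoly = (X - C lam) ^ r * FT.charpoly := by
      rw [← hconj, LinearEquiv.charpoly_conj, LinearMap.charpoly_prodMap]
      congr 1
      rw [← LinearMap.charpoly_toMatrix _ (Pi.basisFun K (Fin r))]
      have h4 : LinearMap.toMatrix (Pi.basisFun K (Fin r)) (Pi.basisFun K (Fin r))
          (lam • LinearMap.id) = diagonal fun _ => lam := by
        rw [map_smul, LinearMap.toMatrix_id]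
        ext i j
        simp [Matrix.one_apply, Matrix.diagonal_apply]
      rw [h4, charpoly_diagonal]
      simp
    rw [h3] at hchar
    exact mul_left_cancel₀ (pow_ne_zero r (X_sub_C_ne_zero lam)) hchar
  -- the bases
  let t := finrank K T
  let bT : Basis (Fin t) K T := finBasis K T
  let c0 : Basis (Fin r ⊕ Fin t) K U := ((Pi.basisFun K (Fin r)).prod bT).map e
  have hc0l : ∀ i, c0 (Sum.inl i) = x i := by
    intro i
    simp only [c0, Basis.map_apply, Basis.prod_apply, Sum.elim_inl]
    change e ((Pi.basisFun K (Fin r)) i, 0) = x i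
    rw [he, hι, Submodule.coe_zero, add_zero, Finset.sum_eq_single i]
    · simp
    · intro j _ hj; simp [hj]
    · intro hi; exact absurd (Finset.mem_univ i) hi
  have hc0r : ∀ k, c0 (Sum.inr k) = (bT k : U) := by
    intro k
    simp only [c0, Basis.map_apply, Basis.prod_apply, Sum.elim_inr]
    change e (0, bT k) = _
    rw [he, map_zero, zero_add]
  let e' : Fin r ⊕ Fin t ≃ Fin d := c0.indexEquiv b
  let c : Basis (Fin d) K U := c0.reindex e'
  -- the Gram matrices
  let GT : Matrix (Fin t) (Fin t) K := Matrix.of fun i j => B (bT i) (bT j)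
  let MT : Matrix (Fin t) (Fin t) K := LinearMap.toMatrix bT bT FT
  have hMT : MT.charpoly = g := by
    rw [← hchar2]
    exact LinearMap.charpoly_toMatrix FT bT
  let Gc : Matrix (Fin d) (Fin d) K := Matrix.of fun i j => B (c i) (c j)
  have hGcdet : Gc.det = (∏ i, B (x i) (x i)) * GT.det := by
    have h3 : Gc = (Matrix.fromBlocks (diagonal fun i => B (x i) (x i)) 0 0 GT).submatrix
        e'.symm e'.symm := by
      ext i j
      rw [submatrix_apply]
      change B (c i) (c j) = _
      have h5 : ∀ i, c i = c0 (e'.symm i) := fun i => by simp [c, Basis.reindex_apply]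
      rw [h5, h5]
      rcases e'.symm i with i | i <;> rcases e'.symm j with j | j
      · rw [hc0l, hc0l, fromBlocks_apply₁₁]
        by_cases hij : i = j
        · subst hij; rw [diagonal_apply_eq]
        · rw [diagonal_apply_ne _ hij, horth i j hij]
      · rw [hc0l, hc0r, fromBlocks_apply₁₂]
        exact (hT _).1 (bT j).2 i
      · rw [hc0l, hc0r, fromBlocks_apply₂₁, hB]
        exact (hT _).1 (bT i).2 j
      · rw [hc0r, hc0r, fromBlocks_apply₂₂]
        rfl
    rw [h3, det_submatrix_equiv_self, det_fromBlocks_zero₂₁, det_diagonal]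
  have hbc : Gc.det = (b.toMatrix c).det ^ 2 * G.det := by
    have h3 : (b.toMatrix c)ᵀ * G * b.toMatrix c = Gc := by
      have h4 := LinearMap.BilinForm.toMatrix_mul_basis_toMatrix b c B
      have h5 : LinearMap.BilinForm.toMatrix b B = G := by
        ext i j
        rw [LinearMap.BilinForm.toMatrix_apply, hG]
      have h6 : LinearMap.BilinForm.toMatrix c B = Gc := by
        ext i j
        rw [LinearMap.BilinForm.toMatrix_apply]
        rfl
      rw [h5, h6] at h4
      exact h4
    rw [← h3, det_mul, det_mul, det_transpose]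
    ring
  have hPne : (b.toMatrix c).det ≠ 0 := by
    have := congrArg det (b.toMatrix_mul_toMatrix_flip c)
    rw [det_mul, det_one] at this
    exact left_ne_zero_of_mul_eq_one this
  have hGT : GT.det ≠ 0 := by
    intro h0
    rw [hGcdet, h0, mul_zero] at hbc
    exact mul_ne_zero (pow_ne_zero 2 hPne) hdet hbc.symm
  have hiso : MTᵀ * GT * MT = lam ^ 2 • GT := by
    let BT : LinearMap.BilinForm K T := B.restrict T
    have h3 : LinearMap.BilinForm.toMatrix bT BT = GT := by
      ext i j
      rw [LinearMap.BilinForm.toMatrix_apply]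
      rfl
    have h4 := LinearMap.BilinForm.toMatrix_comp bT bT BT FT FT
    rw [h3] at h4
    rw [← h4]
    have h5 : BT.comp FT FT = lam ^ 2 • BT := by
      apply LinearMap.ext₂
      intro a a'
      change B (F a) (F a') = lam ^ 2 • B a a'
      rw [hF, smul_eq_mul]
    rw [h5, map_smul, h3]
  obtain ⟨heven, hfin⟩ := disc_isometry hlam (by
      ext i j
      exact hB _ _) hiso hGT (by rw [hMT]; exact h1) (by rw [hMT]; exact h2)
  refine ⟨⟨t, heven, ?_⟩, ?_⟩
  · have := Fintype.card_congr e'
    rw [Fintype.card_sum, Fintype.card_fin, Fintype.card_fin, Fintype.card_fin] at this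
    exact this.symm
  rw [hMT] at hfin
  obtain ⟨s, hs⟩ := hfin
  refine ⟨(b.toMatrix c).det⁻¹ * (∏ i, B (x i) (x i)) * s, ?_⟩
  have h7 : G.det = (b.toMatrix c).det⁻¹ ^ 2 * ((∏ i, B (x i) (x i)) * GT.det) := by
    rw [← hGcdet, hbc]
    field_simp
  rw [h7]
  linear_combination ((b.toMatrix c).det⁻¹ ^ 2 * (∏ i, B (x i) (x i)) ^ 2) * hs

end

end Pool.Agent.H934.PA
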