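import Pool.Agent.H934.PA.Defs0
import Pool.Agent.H934.PA.Disc

/-!
# Eigenvalues and polynomials
-/

open Polynomial Module

namespace Pool.Agent.H934.PA

/-- A monic real polynomial without real roots is positive. -/
lemma pos_of_no_root {p : ℝ[X]} (hp : p.Monic) (h : ∀ x : ℝ, p.eval x ≠ 0) (x : ℝ) :
    0 < p.eval x := by
  by_contra hlt
  push Not at hlt
  have hneg : p.eval x < 0 := lt_of_le_of_ne hlt (h x)
  have hdeg : 0 < p.degree := by
    by_contra h0
    push Not at h0
    have h1 := Polynomial.eq_C_of_degree_le_zero h0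
    have h2 : p.coeff 0 = 1 := by
      have h3 := hp.leadingCoeff
      rw [h1, leadingCoeff_C] at h3
      simpa using h3
    rw [h1, h2, eval_C] at hneg
    linarith
  have ht := Polynomial.tendsto_atTop_of_leadingCoeff_nonneg p hdeg (by rw [hp.leadingCoeff]; norm_num)
  obtain ⟨y, hy0, hy1⟩ := ((Filter.tendsto_atTop.1 ht 1).and (Filter.eventually_ge_atTop x)).exists
  have hcont : ContinuousOn (fun z => p.eval z) (Set.Icc x y) := p.continuous.continuousOn
  have hmem : (0 : ℝ) ∈ Set.Icc (p.eval x) (p.eval y) := ⟨hneg.le, by linarith⟩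
  obtain ⟨z, -, hz⟩ := intermediate_value_Icc hy1 hcont hmem
  exact h z hz

lemma IsWeilPoly.no_real {lam : ℚ} {g : ℚ[X]} (h : IsWeilPoly lam g) (x : ℝ) :
    (g.map (algebraMap ℚ ℝ)).eval x ≠ 0 := by
  intro h0
  have h1 : aeval (x : ℂ) g = 0 := by
    have h2 : aeval (x : ℂ) g = ((aeval x g : ℝ) : ℂ) := by
      have := Polynomial.aeval_algebraMap_apply ℂ x g
      exact this
    rw [h2, aeval_def, ← eval_map, h0]
    simp
  obtain ⟨h3, h4⟩ := h _ h1
  apply h4 2 (by norm_num)
  have h5 : |x| = (lam : ℝ) := by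
    rw [← h3]; simp
  have h6 : x ^ 2 = (lam : ℝ) ^ 2 := by rw [← h5, sq_abs]
  exact_mod_cast h6

/-- The values of `g` at rational numbers are positive. -/
lemma IsWeilPoly.pos {lam : ℚ} {g : ℚ[X]} (h : IsWeilPoly lam g) (hg : g.Monic) (x : ℚ) :
    0 < g.eval x := by
  have h1 := pos_of_no_root (hg.map (algebraMap ℚ ℝ)) h.no_real (x : ℝ)
  have h2 : (g.map (algebraMap ℚ ℝ)).eval (x : ℝ) = ((g.eval x : ℚ) : ℝ) := by
    have := Polynomial.eval_map_algebraMap (B := ℝ) g ((x : ℚ) : ℝ)
    rw [this]
    exact Polynomial.aeval_algebraMap_apply_eq_algebraMap_eval x g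
  rw [h2] at h1
  exact_mod_cast h1

/-- The polynomials `(X - lam) ^ r * g` and `X ^ m - lam ^ m` generate the ideal of `X - lam`. -/
lemma exists_bezout {lam : ℚ} (hlam : 0 < lam) {g : ℚ[X]} (h : IsWeilPoly lam g) (r m : ℕ)
    (hm : 1 ≤ m) : ∃ u v : ℚ[X], X - C lam = u * (X ^ m - C lam ^ m) + v * ((X - C lam) ^ r * g) := by
  set B1 : ℚ[X] := ∑ i ∈ Finset.range m, X ^ i * C lam ^ (m - 1 - i) with hB1
  have hB : B1 * (X - C lam) = X ^ m - C lam ^ m := (Commute.all _ _).geom_sum₂_mul m
  have hc1 : IsCoprime B1 (X - C lam) := by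
    rw [Polynomial.isCoprime_iff_aeval_ne_zero_of_isAlgClosed ℚ ℂ]
    intro a
    by_cases ha : a = (lam : ℂ)
    · left
      subst ha
      rw [hB1, map_sum]
      have h1 : ∀ i ∈ Finset.range m, aeval ((lam : ℚ) : ℂ) (X ^ i * C lam ^ (m - 1 - i) : ℚ[X]) =
          (lam : ℂ) ^ (m - 1) := by
        intro i hi
        have h2 : i + (m - 1 - i) = m - 1 := by
          have := Finset.mem_range.1 hi
          omega
        rw [map_mul, map_pow, map_pow, aeval_X, aeval_C, eq_ratCast, ← pow_add, h2]
      rw [Finset.sum_congr rfl h1, Finset.sum_const, Finset.card_range, nsmul_eq_mul]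
      apply mul_ne_zero
      · exact_mod_cast (by omega : m ≠ 0)
      · apply pow_ne_zero
        exact_mod_cast hlam.ne'
    · right
      rw [map_sub, aeval_X, aeval_C, sub_ne_zero]
      exact ha
  have hc2 : IsCoprime B1 g := by
    rw [Polynomial.isCoprime_iff_aeval_ne_zero_of_isAlgClosed ℚ ℂ]
    intro a
    by_cases ha : aeval a g = 0
    · left
      intro h1
      have h2 : aeval a (X ^ m - C lam ^ m : ℚ[X]) = 0 := by
        rw [← hB, map_mul, h1, zero_mul]
      rw [map_sub, map_pow, map_pow, aeval_X, aeval_C, sub_eq_zero] at h2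
      exact (h a ha).2 m hm h2
    · right; exact ha
  have hc : IsCoprime B1 ((X - C lam) ^ r * g) := (hc1.pow_right).mul_right hc2
  obtain ⟨u, v, huv⟩ := hc
  refine ⟨u, v * (X - C lam), ?_⟩
  rw [← hB]
  linear_combination (-(X - C lam)) * huv

section

variable {K : Type*} [Field K] [CharZero K] {U : Type*} [AddCommGroup U] [Module K U]
  [FiniteDimensional K U]

/-- An element on which a power of `F` acts as `lam ^ m` is an eigenvector of `F`. -/
lemma eigen_of_pow {F : Module.End K U} {lam : ℚ} (hlam : 0 < lam) {g : ℚ[X]}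
    (h : IsWeilPoly lam g) {r : ℕ}
    (hchar : F.charpoly = ((X - C lam) ^ r * g).map (algebraMap ℚ K)) {m : ℕ} (hm : 1 ≤ m) {x : U}
    (hx : (F ^ m) x = ((lam : ℚ) : K) ^ m • x) : F x = ((lam : ℚ) : K) • x := by
  obtain ⟨u, v, huv⟩ := exists_bezout hlam h r m hm
  have h1 := congrArg (fun P : ℚ[X] => (aeval F (P.map (algebraMap ℚ K))) x) huv
  simp only [Polynomial.map_add, Polynomial.map_mul, map_add, map_mul, LinearMap.add_apply,
    Module.End.mul_apply] at h1
  have h2 : aeval F (((X - C lam) ^ r * g : ℚ[X]).map (algebraMap ℚ K)) = 0 := by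
    rw [← hchar]; exact LinearMap.aeval_self_charpoly F
  rw [Polynomial.map_mul, map_mul] at h2
  have h3 := congrArg (fun T : Module.End K U => T x) h2
  simp only [Module.End.mul_apply, LinearMap.zero_apply] at h3
  rw [h3, map_zero, add_zero] at h1
  have h4 : (aeval F ((X ^ m - C lam ^ m : ℚ[X]).map (algebraMap ℚ K))) x = 0 := by
    simp only [Polynomial.map_sub, Polynomial.map_pow, map_X, map_C, map_sub, map_pow, aeval_X,
      aeval_C, LinearMap.sub_apply]
    rw [hx, sub_eq_zero]
    have : (algebraMap K (Module.End K U) ((algebraMap ℚ K) lam)) ^ m =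
        algebraMap K (Module.End K U) (((lam : ℚ) : K) ^ m) := by
      rw [map_pow, eq_ratCast]
    rw [this, Module.algebraMap_end_apply]
  rw [h4, map_zero] at h1
  simp only [Polynomial.map_sub, map_X, map_C, map_sub, aeval_X, aeval_C, LinearMap.sub_apply,
    Module.algebraMap_end_apply, eq_ratCast] at h1
  exact sub_eq_zero.1 h1

/-- Orthogonal independent eigenvectors are not isotropic, if their number is the multiplicity of
the eigenvalue. -/
lemma not_isotropic (B : LinearMap.BilinForm K U) (hB : ∀ x y, B x y = B y x)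
    (hnd : ∀ x, (∀ y, B x y = 0) → x = 0) (F : Module.End K U)
    {lam : K} (hlam : lam ≠ 0) (hF : ∀ x y, B (F x) (F y) = lam ^ 2 * B x y) {r : ℕ}
    (x : Fin r → U) (hx : ∀ i, F (x i) = lam • x i) (horth : ∀ i j, i ≠ j → B (x i) (x j) = 0)
    (hli : LinearIndependent K x) {g : K[X]} (hchar : F.charpoly = (X - C lam) ^ r * g)
    (h1 : g.eval lam ≠ 0) (i : Fin r) : B (x i) (x i) ≠ 0 := by
  intro h0
  have hxi : x i ≠ 0 := hli.ne_zero i
  apply hxi
  apply hnd
  -- the generalized eigenspace is spanned by the eigenvectors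
  have hmult : F.charpoly.rootMultiplicity lam = r := by
    rw [hchar, rootMultiplicity_mul (by rw [← hchar]; exact (LinearMap.charpoly_monic F).ne_zero),
      rootMultiplicity_X_sub_C_pow, rootMultiplicity_eq_zero h1, add_zero]
  have hfin : finrank K (F.maxGenEigenspace lam) = r := by
    rw [LinearMap.finrank_maxGenEigenspace_eq, hmult]
  have hsub : Submodule.span K (Set.range x) ≤ F.maxGenEigenspace lam := by
    rw [Submodule.span_le]
    rintro _ ⟨k, rfl⟩
    exact Module.End.eigenspace_le_maxGenEigenspace (Module.End.mem_eigenspace_iff.2 (hx k))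
  have hspan : Submodule.span K (Set.range x) = F.maxGenEigenspace lam := by
    apply Submodule.eq_of_le_of_finrank_eq hsub
    rw [hfin, finrank_span_eq_card hli, Fintype.card_fin]
  have hker : ∀ y ∈ F.maxGenEigenspace lam, B (x i) y = 0 := by
    intro y hy
    rw [← hspan] at hy
    refine Submodule.span_induction (p := fun y _ => B (x i) y = 0) ?_ ?_ ?_ ?_ hy
    · rintro _ ⟨k, rfl⟩
      by_cases hik : i = k
      · subst hik; exact h0
      · exact horth i k hik
    · exact map_zero _
    · intro a b _ _ ha hb; rw [map_add, ha, hb, add_zero]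
    · intro c a _ ha; rw [map_smul, ha, smul_zero]
  have hstep : ∀ y, B (x i) (F y) = lam * B (x i) y := by
    intro y
    have h2 := hF (x i) y
    rw [hx, map_smul, LinearMap.smul_apply, smul_eq_mul] at h2
    apply mul_left_cancel₀ hlam
    rw [h2]; ring
  have hpoly : ∀ (P : K[X]) (y : U), B (x i) ((aeval F P) y) = P.eval lam * B (x i) y := by
    intro P y
    induction P using Polynomial.induction_on with
    | C a => simp [Module.algebraMap_end_apply]
    | add p q hp hq => rw [map_add, LinearMap.add_apply, map_add, hp, hq, eval_add, add_mul]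
    | monomial n a ih =>
      rw [pow_succ, ← mul_assoc, mul_comm _ X, map_mul, aeval_X, Module.End.mul_apply, hstep, ih,
        eval_mul (p := X), eval_X]
      ring
  intro y
  -- `g (F) y` is in the generalized eigenspace
  have h3 : (aeval F g) y ∈ F.maxGenEigenspace lam := by
    rw [Module.End.mem_maxGenEigenspace]
    refine ⟨r, ?_⟩
    have h4 := LinearMap.aeval_self_charpoly F
    rw [hchar, map_mul] at h4
    have h5 := congrArg (fun T : Module.End K U => T y) h4
    simp only [Module.End.mul_apply, LinearMap.zero_apply, map_pow, map_sub, aeval_X, aeval_C] at h5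
    rw [← h5]
    rfl
  have h6 := hker _ h3
  rw [hpoly] at h6
  exact (mul_eq_zero.1 h6).resolve_left h1

end

end Pool.Agent.H934.PA
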