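import Pool.Agent.H934.PA.Defs0

/-!
# The sign of the discriminant of a polarized Hodge structure of even weight
-/

open Matrix Module

namespace Pool.Agent.H934.PA

/-- **The sign of the discriminant.** -/
theorem HasHodgeSigns.sign {j d : ℕ} {G : Matrix (Fin d) (Fin d) ℚ} (hG : Gᵀ = G)
    (h : HasHodgeSigns j G) : 0 < (-1 : ℚ) ^ (j * d) * G.det := by
  classical
  obtain ⟨N, E, hE, horth, hpos, heven⟩ := h
  set R : Matrix (Fin d) (Fin d) ℝ := G.map (Rat.cast : ℚ → ℝ) with hR
  have hRs : Rᵀ = R := by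
    rw [hR, ← transpose_map, hG]
  let B : LinearMap.BilinForm ℝ (Fin d → ℝ) := Matrix.toBilin' R
  have hB : ∀ x y, B x y = x ⬝ᵥ R *ᵥ y := fun x y => Matrix.toBilin'_apply' R x y
  have hBs : ∀ x y, B x y = B y x := by
    intro x y
    rw [hB, hB, dotProduct_mulVec, ← mulVec_transpose, hRs, dotProduct_comm]
  let b : ∀ a, Basis (Fin (finrank ℝ (E a))) ℝ (E a) := fun a => finBasis ℝ (E a)
  let c0 := hE.collectedBasis b
  let ix := Σ a : Fin N, Fin (finrank ℝ (E a))
  have hc0 : ∀ i : ix, c0 i ∈ E i.1 := fun i => hE.collectedBasis_mem b i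
  let e : ix ≃ Fin d := c0.indexEquiv (Pi.basisFun ℝ (Fin d))
  have hcard : ∑ a : Fin N, finrank ℝ (E a) = d := by
    have := Fintype.card_congr e
    rw [Fintype.card_sigma, Fintype.card_fin] at this
    simpa using this
  let s : ix → ℝ := fun i => (-1 : ℝ) ^ (j + (i.1 : ℕ))
  let GE : Matrix ix ix ℝ := Matrix.of fun i i' => B (c0 i) (c0 i')
  have hGE0 : ∀ i i' : ix, i.1 ≠ i'.1 → GE i i' = 0 := fun i i' hne => by
    change B (c0 i) (c0 i') = 0
    rw [hB]
    exact horth _ _ hne _ (hc0 i) _ (hc0 i')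
  let M : Matrix ix ix ℝ := diagonal s * GE
  have hM : ∀ i i', M i i' = s i * GE i i' := fun i i' => diagonal_mul _ _ _ _
  -- positivity
  have hpd : M.PosDef := by
    apply Matrix.PosDef.of_dotProduct_mulVec_pos
    · ext i i'
      rw [conjTranspose_apply, hM, hM, star_trivial]
      by_cases hne : i.1 = i'.1
      · have h1 : GE i' i = GE i i' := hBs _ _
        have h2 : s i' = s i := by simp only [s, hne]
        rw [h1, h2]
      · rw [hGE0 i i' hne, hGE0 i' i (Ne.symm hne), mul_zero, mul_zero]
    · intro x hx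
      let v : Fin N → (Fin d → ℝ) := fun a => ∑ k, x ⟨a, k⟩ • c0 ⟨a, k⟩
      have hv : ∀ a, v a ∈ E a := fun a =>
        Submodule.sum_mem _ fun k _ => Submodule.smul_mem _ _ (hc0 ⟨a, k⟩)
      let w : Fin d → ℝ := ∑ i, x i • c0 i
      let u : Fin d → ℝ := ∑ i, (s i * x i) • c0 i
      have hw : w = ∑ a, v a := by
        simp only [w, v]
        exact Fintype.sum_sigma _
      have hu : u = ∑ a : Fin N, (-1 : ℝ) ^ (j + (a : ℕ)) • v a := by
        simp only [u, v]
        rw [Fintype.sum_sigma]
        apply Finset.sum_congr rfl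
        intro a _
        rw [Finset.smul_sum]
        apply Finset.sum_congr rfl
        intro k _
        rw [smul_smul]
      have hBuw : B u w = star x ⬝ᵥ (M *ᵥ x) := by
        rw [star_trivial]
        simp only [u, w, dotProduct, mulVec]
        rw [LinearMap.map_sum₂]
        apply Finset.sum_congr rfl
        intro i _
        rw [LinearMap.map_smul₂, map_sum, smul_eq_mul, Finset.mul_sum, Finset.mul_sum]
        apply Finset.sum_congr rfl
        intro i' _
        rw [map_smul, hM, smul_eq_mul]
        change _ = x i * (s i * B (c0 i) (c0 i') * x i')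
        ring
      have hval : star x ⬝ᵥ (M *ᵥ x) =
          ∑ a : Fin N, (-1 : ℝ) ^ (j + (a : ℕ)) * B (v a) (v a) := by
        rw [← hBuw, hu, hw, LinearMap.map_sum₂]
        apply Finset.sum_congr rfl
        intro a _
        rw [LinearMap.map_smul₂, map_sum, smul_eq_mul, Finset.sum_eq_single a]
        · intro a' _ ha'
          rw [hB]
          exact horth a a' (Ne.symm ha') _ (hv a) _ (hv a')
        · intro ha; exact absurd (Finset.mem_univ a) ha
      rw [hval]
      obtain ⟨⟨a, k⟩, hak⟩ := Function.ne_iff.1 hx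
      apply Finset.sum_pos'
      · intro a' _
        by_cases h0 : v a' = 0
        · rw [h0]; simp
        · have := hpos a' _ (hv a') h0
          rw [← hB] at this
          exact this.le
      · refine ⟨a, Finset.mem_univ a, ?_⟩
        have h0 : v a ≠ 0 := by
          intro h0
          apply hak
          have hli : LinearIndependent ℝ fun k => c0 ⟨a, k⟩ :=
            c0.linearIndependent.comp (fun k => (⟨a, k⟩ : ix)) (fun k k' hkk => by
              simpa using hkk)
          exact Fintype.linearIndependent_iff.1 hli (fun k => x ⟨a, k⟩) h0 k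
        have := hpos a _ (hv a) h0
        rw [← hB] at this
        exact this
  have hdet := hpd.det_pos
  have h1 : M.det = (∏ i, s i) * GE.det := by rw [det_mul, det_diagonal]
  -- the product of the signs
  have h2 : ∏ i, s i = (-1 : ℝ) ^ (j * d) := by
    rw [← Finset.univ_sigma_univ, Finset.prod_sigma]
    simp only [s, Finset.prod_const, Finset.card_univ, Fintype.card_fin]
    have h3 : ∀ a : Fin N, ((-1 : ℝ) ^ (j + (a : ℕ))) ^ finrank ℝ (E a) =
        (-1 : ℝ) ^ (j * finrank ℝ (E a)) := by
      intro a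
      rw [← pow_mul, add_mul, pow_add]
      have : (-1 : ℝ) ^ ((a : ℕ) * finrank ℝ (E a)) = 1 := by
        rcases Nat.eq_zero_or_pos (a : ℕ) with h0 | h0
        · rw [h0, zero_mul, pow_zero]
        · exact ((heven a h0).mul_left _).neg_one_pow
      rw [this, mul_one]
    rw [Finset.prod_congr rfl fun a _ => h3 a, Finset.prod_pow_eq_pow_sum, ← Finset.mul_sum, hcard]
  -- comparison of the Gram matrices
  let c : Basis (Fin d) ℝ (Fin d → ℝ) := c0.reindex e
  have h4 : GE.det = ((Pi.basisFun ℝ (Fin d)).toMatrix c).det ^ 2 * R.det := by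
    have h5 := LinearMap.BilinForm.toMatrix_mul_basis_toMatrix (Pi.basisFun ℝ (Fin d)) c B
    have h6 : LinearMap.BilinForm.toMatrix (Pi.basisFun ℝ (Fin d)) B = R := by
      ext i i'
      rw [LinearMap.BilinForm.toMatrix_apply, hB]
      simp [Pi.basisFun_apply]
    have h7 : LinearMap.BilinForm.toMatrix c B = GE.submatrix e.symm e.symm := by
      ext i i'
      rw [LinearMap.BilinForm.toMatrix_apply, submatrix_apply]
      simp only [c, Basis.reindex_apply]
      rfl
    rw [h6, h7] at h5
    have h8 := congrArg det h5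
    rw [det_mul, det_mul, det_transpose, det_submatrix_equiv_self] at h8
    rw [← h8]
    ring
  have h9 : R.det = ((G.det : ℚ) : ℝ) := by
    rw [hR]
    exact ((Rat.castHom ℝ).map_det G).symm
  rw [h1, h2, h4, h9] at hdet
  have h10 : 0 < ((Pi.basisFun ℝ (Fin d)).toMatrix c).det ^ 2 := by
    apply lt_of_le_of_ne (sq_nonneg _)
    intro h0
    rw [← h0] at hdet
    simp at hdet
  have h11 : 0 < (-1 : ℝ) ^ (j * d) * ((G.det : ℚ) : ℝ) := by
    have h12 : (-1 : ℝ) ^ (j * d) * (((Pi.basisFun ℝ (Fin d)).toMatrix c).det ^ 2 *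
        ((G.det : ℚ) : ℝ)) = ((Pi.basisFun ℝ (Fin d)).toMatrix c).det ^ 2 *
        ((-1 : ℝ) ^ (j * d) * ((G.det : ℚ) : ℝ)) := by ring
    rw [h12] at hdet
    exact (mul_pos_iff_of_pos_left h10).1 hdet
  exact_mod_cast h11

end Pool.Agent.H934.PA
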