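import Pool.Agent.H914R2.HodgeDefs
import Pool.Agent.H934.PA.Sign
import Pool.Agent.H934.PA.Poly

/-!
# Pieces of the primitive cohomology of a variety over a finite field with a lifting: definitions
-/

open CategoryTheory AlgebraicGeometry Module

universe u v

namespace Pool.Agent.H934.PA

open Pool.Agent.H914 Pool.Agent.H914.VarClass Pool.Agent.H914.VarClass.Obj
  Pool.Agent.H914.WeilCohomology

variable {k : Type u} [Field k] {𝒱 : VarClass k} {ops : CycleOps 𝒱}

/-- Weil cohomology theories with coefficients in `ℚ_ℓ` for all primes `ℓ ≠ p`, on the same varieties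
and with the same operations on cycles (for example `ℓ`-adic cohomology, over a field of characteristic
`p`). -/
structure LadicSystem (ops : CycleOps 𝒱) (p : ℕ) where
  /-- the Weil cohomology theory with the index `ℓ` -/
  W : Nat.Primes → WeilCohomology.{u, v} ops
  iso : ∀ l : Nat.Primes, (l : ℕ) ≠ p → Nonempty ((W l).K ≃+* @Padic (l : ℕ) ⟨l.2⟩)

/-- The primitive cohomology of degree `2 j` of `X`, for the divisor `D`. -/
noncomputable def prim (W : WeilCohomology.{u, v} ops) (X : 𝒱.Obj) (D : X.Cycles) (j : ℕ) :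
    Submodule W.K (W.H X) :=
  W.gr X (2 * j) ⊓ LinearMap.ker (LinearMap.mulLeft W.K (W.cl X D ^ (X.dim - 2 * j + 1)))

/-- The bilinear form `(a, b) ↦ Tr (a b D ^ (n - 2 j))`. -/
noncomputable def hform (W : WeilCohomology.{u, v} ops) (X : 𝒱.Obj) (D : X.Cycles) (j : ℕ) :
    LinearMap.BilinForm W.K (W.H X) :=
  (LinearMap.mul W.K (W.H X)).compr₂
    (W.tr X ∘ₗ LinearMap.mulRight W.K (W.cl X D ^ (X.dim - 2 * j)))

/-- The endomorphism `f` of `X` is a Frobenius endomorphism relative to the field with `q` elements: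
it multiplies the class of `D` by `q`, it has the degree `q ^ n`, and for every cycle `z` of
codimension `j` some power `f ^ m` multiplies the class of `z` by `q ^ (m j)`. -/
structure IsFrobenius (W : WeilCohomology.{u, v} ops) (X : 𝒱.Obj) (D : X.Cycles) (f : X ⟶ X)
    (q : ℕ) : Prop where
  div : W.map f (W.cl X D) = (q : W.K) • W.cl X D
  degree : W.push f 1 = (q : W.K) ^ X.dim • (1 : W.H X)
  cycles : FrobeniusOnCycles W X f q

/-- The algebraic correspondence `c` induces a projection of the primitive cohomology of degree `2 j`,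
which is self-adjoint and commutes with the Frobenius endomorphism `f`. -/
structure IsProj (W : WeilCohomology.{u, v} ops) (X : 𝒱.Obj) (D : X.Cycles) (f : X ⟶ X) (j : ℕ)
    (c : (X.prod X).Cycles) : Prop where
  mem : ∀ a ∈ prim W X D j, W.corr (W.cl _ c) a ∈ prim W X D j
  idem : ∀ a ∈ prim W X D j, W.corr (W.cl _ c) (W.corr (W.cl _ c) a) = W.corr (W.cl _ c) a
  adj : ∀ a ∈ prim W X D j, ∀ b ∈ prim W X D j,
    hform W X D j (W.corr (W.cl _ c) a) b = hform W X D j a (W.corr (W.cl _ c) b)
  comm : ∀ a ∈ prim W X D j, W.corr (W.cl _ c) (W.map f a) = W.map f (W.corr (W.cl _ c) a)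

/-- The image of this projection: a piece of the primitive cohomology. -/
noncomputable def piece (W : WeilCohomology.{u, v} ops) (X : 𝒱.Obj) (D : X.Cycles) (j : ℕ)
    (c : (X.prod X).Cycles) : Submodule W.K (W.H X) :=
  (prim W X D j).map (W.corr (W.cl _ c))

/-- The form on the piece given by `c` has the rational Gram matrix `G` in a suitable basis. -/
def HasGram (W : WeilCohomology.{u, v} ops) (X : 𝒱.Obj) (D : X.Cycles) (j : ℕ)
    (c : (X.prod X).Cycles) {d : ℕ} (G : Matrix (Fin d) (Fin d) ℚ) : Prop :=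
  ∃ b : Basis (Fin d) W.K (piece W X D j c), ∀ i i', hform W X D j (b i) (b i') = (G i i' : W.K)

/-- The characteristic polynomial of `f` on the subspace `U` is `P`. -/
def HasCharpoly (W : WeilCohomology.{u, v} ops) (X : 𝒱.Obj) (f : X ⟶ X) (U : Submodule W.K (W.H X))
    (P : Polynomial ℚ) : Prop :=
  ∃ h : ∀ a ∈ U, (W.map f).toLinearMap a ∈ U,
    ((W.map f).toLinearMap.restrict h).charpoly = P.map (algebraMap ℚ W.K)

/-- A decomposition of the primitive cohomology of degree `2 j` of the polarized variety `(X, D)`, by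
algebraic correspondences, into orthogonal pieces that lift to characteristic zero: the form on a piece
has the same rational Gram matrix (that of the Betti cohomology of the lifting) for all `ℓ ≠ p`, with the
signs of the Hodge-Riemann relations, and the characteristic polynomial of the Frobenius endomorphism on
the piece is `(X - q ^ j) ^ mult * rest`, where the complex roots of `rest` have the absolute value
`q ^ j` and are not the products of `q ^ j` and a root of unity. So `mult` is the number of the
Frobenius eigenvalues of Tate type on the piece. -/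
structure Splitting {p : ℕ} (S : LadicSystem.{u, v} ops p) (X : 𝒱.Obj) (D : X.Cycles) (f : X ⟶ X)
    (q j : ℕ) where
  /-- the number of pieces -/
  num : ℕ
  /-- the algebraic correspondences -/
  corr : Fin num → (X.prod X).Cycles
  /-- the ranks of the pieces -/
  rank : Fin num → ℕ
  /-- the Gram matrices of the pieces -/
  gram : ∀ i, Matrix (Fin (rank i)) (Fin (rank i)) ℚ
  /-- the multiplicities of the Frobenius eigenvalue `q ^ j` -/
  mult : Fin num → ℕ
  /-- the other factors of the characteristic polynomials -/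
  rest : Fin num → Polynomial ℚ
  isCyc : ∀ i, (X.prod X).IsCyc X.dim (corr i)
  symm : ∀ i, (gram i).transpose = gram i
  signs : ∀ i, HasHodgeSigns j (gram i)
  monic : ∀ i, (rest i).Monic
  weil : ∀ i, IsWeilPoly ((q : ℚ) ^ j) (rest i)
  isProj : ∀ l : Nat.Primes, (l : ℕ) ≠ p → ∀ i, IsProj (S.W l) X D f j (corr i)
  hasGram : ∀ l : Nat.Primes, (l : ℕ) ≠ p → ∀ i, HasGram (S.W l) X D j (corr i) (gram i)
  hasCharpoly : ∀ l : Nat.Primes, (l : ℕ) ≠ p → ∀ i,
    HasCharpoly (S.W l) X f (piece (S.W l) X D j (corr i))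
      ((Polynomial.X - Polynomial.C ((q : ℚ) ^ j)) ^ mult i * rest i)
  sum : ∀ l : Nat.Primes, (l : ℕ) ≠ p → ∀ a ∈ prim (S.W l) X D j,
    ∑ i, (S.W l).corr ((S.W l).cl _ (corr i)) a = a
  orth : ∀ l : Nat.Primes, (l : ℕ) ≠ p → ∀ a ∈ prim (S.W l) X D j, ∀ i i', i ≠ i' →
    (S.W l).corr ((S.W l).cl _ (corr i)) ((S.W l).corr ((S.W l).cl _ (corr i')) a) = 0

/-- The intersection number `z · w · D ^ (n - 2 j)`. -/
noncomputable def pairing (ops : CycleOps 𝒱) (X : 𝒱.Obj) (D : X.Cycles) (j : ℕ) (z w : X.Cycles) :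
    ℚ :=
  X.V.degCycle (ops.mul z (divPow ops D (X.dim - 2 * j) w))

/-- There are `r - 1` orthogonal algebraic classes on the piece given by `c` for which the sign is as
predicted by the Hodge-Riemann relations (for example classes that lift to characteristic zero). This
holds if `r ≤ 1`. -/
def HasPositive (W : WeilCohomology.{u, v} ops) (X : 𝒱.Obj) (D : X.Cycles) (j : ℕ)
    (c : (X.prod X).Cycles) (r : ℕ) : Prop :=
  ∃ z : Fin (r - 1) → X.Cycles, (∀ i, X.IsCyc j (z i)) ∧ (∀ i, W.cl X (z i) ∈ piece W X D j c) ∧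
    (∀ i i', i ≠ i' → pairing ops X D j (z i) (z i') = 0) ∧
    ∀ i, 0 < (-1 : ℚ) ^ j * pairing ops X D j (z i) (z i)

end Pool.Agent.H934.PA
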