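import Mathlib

/-!
# Definitions: signs of Hodge-Riemann type, polynomials of Weil type
-/

open Matrix Module Polynomial

namespace Pool.Agent.H934.PA

/-- The real quadratic form with the Gram matrix `G` has the signs of the Hodge-Riemann relations for
the form `(x, y) ↦ ∫ x y L ^ (n - 2 j)` on the primitive cohomology of degree `2 j`: the space is the
orthogonal direct sum of subspaces `E a` (the real classes in `V ^ (j + a, j - a) + V ^ (j - a, j + a)`)
such that the form has the sign `(-1) ^ (j + a)` on `E a`, and `E a` is of even dimension if `a > 0`. -/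
def HasHodgeSigns (j : ℕ) {d : ℕ} (G : Matrix (Fin d) (Fin d) ℚ) : Prop :=
  ∃ (N : ℕ) (E : Fin N → Submodule ℝ (Fin d → ℝ)), DirectSum.IsInternal E ∧
    (∀ a b, a ≠ b → ∀ x ∈ E a, ∀ y ∈ E b, x ⬝ᵥ G.map (Rat.cast : ℚ → ℝ) *ᵥ y = 0) ∧
    (∀ a, ∀ x ∈ E a, x ≠ 0 →
      0 < (-1 : ℝ) ^ (j + (a : ℕ)) * (x ⬝ᵥ G.map (Rat.cast : ℚ → ℝ) *ᵥ x)) ∧
    ∀ a : Fin N, 0 < (a : ℕ) → Even (finrank ℝ (E a))

/-- The complex roots of `g` have the absolute value `lam`, and no power of a root is a power of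
`lam`. -/
def IsWeilPoly (lam : ℚ) (g : ℚ[X]) : Prop :=
  ∀ a : ℂ, aeval a g = 0 → ‖a‖ = (lam : ℝ) ∧ ∀ m : ℕ, 1 ≤ m → a ^ m ≠ (lam : ℂ) ^ m

end Pool.Agent.H934.PA
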