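import Pool.Agent.H914R2.HodgeDefs
import Pool.Agent.H934.PA.Defs0

/-!
# Pieces of the primitive cohomology of a variety over a finite field that lift to characteristic zero

Definitions (in terms of elements) for the results.
-/

open CategoryTheory AlgebraicGeometry

universe u v

namespace Pool.Agent.H934.Lift

open Pool.Agent.H914 Pool.Agent.H914.VarClass Pool.Agent.H914.VarClass.Obj
  Pool.Agent.H914.WeilCohomology Pool.Agent.H934.PA

variable {k : Type u} [Field k] {𝒱 : VarClass k} {ops : CycleOps 𝒱}

/-- Weil cohomology theories with coefficients in `ℚ_ℓ` for all primes `ℓ ≠ p`, on the same varieties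
and with the same operations on cycles (for example `ℓ`-adic cohomology, over a field of characteristic
`p`). -/
structure LadicSystem (ops : CycleOps 𝒱) (p : ℕ) where
  /-- the Weil cohomology theory with the index `ℓ` -/
  W : Nat.Primes → WeilCohomology.{u, v} ops
  iso : ∀ l : Nat.Primes, (l : ℕ) ≠ p → Nonempty ((W l).K ≃+* @Padic (l : ℕ) ⟨l.2⟩)

/-- The intersection number `z · w · D ^ (n - 2 j)`, where `n = dim X`. -/
noncomputable def pairing (ops : CycleOps 𝒱) (X : 𝒱.Obj) (D : X.Cycles) (j : ℕ) (z w : X.Cycles) :
    ℚ :=
  X.V.degCycle (ops.mul z (divPow ops D (X.dim - 2 * j) w))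

section

variable (W : WeilCohomology.{u, v} ops)

/-- The power `D ^ m` of the class of `D`. -/
noncomputable def classPow (X : 𝒱.Obj) (D : X.Cycles) (m : ℕ) : W.H X := W.cl X D ^ m

/-- The form `(a, b) ↦ Tr (a b D ^ (n - 2 j))` on the cohomology of `X`, where `n = dim X`. -/
noncomputable def form (X : 𝒱.Obj) (D : X.Cycles) (j : ℕ) (a b : W.H X) : W.K :=
  W.tr X (a * b * classPow W X D (X.dim - 2 * j))

/-- The element `a` of the cohomology of `X` is in the primitive cohomology of degree `2 j`. -/
def IsPrim (X : 𝒱.Obj) (D : X.Cycles) (j : ℕ) (a : W.H X) : Prop :=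
  a ∈ W.gr X (2 * j) ∧ classPow W X D (X.dim - 2 * j + 1) * a = 0

/-- The pull-back `f^* a`. -/
noncomputable def pullBack {X : 𝒱.Obj} (f : X ⟶ X) (a : W.H X) : W.H X := W.map f a

/-- The image `c_* a` of `a` under the correspondence `c`. -/
noncomputable def act {X : 𝒱.Obj} (c : (X.prod X).Cycles) (a : W.H X) : W.H X :=
  W.corr (W.cl _ c) a

/-- The sum of the elements `t i • b i`. -/
noncomputable def comb {X : 𝒱.Obj} {d : ℕ} (t : Fin d → W.K) (b : Fin d → W.H X) : W.H X :=
  ∑ i, t i • b i

/-- The class of the cycle `z'` is `t` times the class of the cycle `z`. -/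
def IsMultiple (X : 𝒱.Obj) (z' z : X.Cycles) (t : ℚ) : Prop := W.cl X z' = W.cl X (t • z)

/-- The endomorphism `f` of `X` is a Frobenius endomorphism relative to the field with `q` elements:
it multiplies the class of `D` by `q`, it has the degree `q ^ n`, and for every cycle `z` of
codimension `j` some power `f ^ m` multiplies the class of `z` by `q ^ (m j)`. -/
structure IsFrobenius (X : 𝒱.Obj) (D : X.Cycles) (f : X ⟶ X) (q : ℕ) : Prop where
  div : IsMultiple W X (ops.pull f D) D q
  degree : IsMultiple W X (ops.push f X.V.fundCycle) X.V.fundCycle ((q : ℚ) ^ X.dim)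
  cycles : FrobeniusOnCycles W X f q

/-- The algebraic correspondence `c` induces a projection of the primitive cohomology of degree `2 j`,
which is self-adjoint for the form and commutes with the Frobenius endomorphism `f`. -/
structure IsProj (X : 𝒱.Obj) (D : X.Cycles) (f : X ⟶ X) (j : ℕ) (c : (X.prod X).Cycles) : Prop where
  mem : ∀ a, IsPrim W X D j a → IsPrim W X D j (act W c a)
  idem : ∀ a, IsPrim W X D j a → act W c (act W c a) = act W c a
  adj : ∀ a b, IsPrim W X D j a → IsPrim W X D j b →
    form W X D j (act W c a) b = form W X D j a (act W c b)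
  comm : ∀ a, IsPrim W X D j a → act W c (pullBack W f a) = pullBack W f (act W c a)

/-- The elements `b i` are in the piece of the primitive cohomology of degree `2 j` given by `c` (the
image of the projection), and every element of it is a linear combination of them. -/
def Spans (X : 𝒱.Obj) (D : X.Cycles) (j : ℕ) (c : (X.prod X).Cycles) {d : ℕ}
    (b : Fin d → W.H X) : Prop :=
  (∀ i, IsPrim W X D j (b i) ∧ act W c (b i) = b i) ∧
    ∀ a, IsPrim W X D j a → act W c a = a → ∃ t, a = comb W t b

/-- The polynomial `P` is the characteristic polynomial of the matrix of `f^*` in the basis `b`. -/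
def FrobeniusPoly {X : 𝒱.Obj} (f : X ⟶ X) {d : ℕ} (b : Fin d → W.H X) (P : Polynomial ℚ) : Prop :=
  ∃ M : Matrix (Fin d) (Fin d) W.K, (∀ i, pullBack W f (b i) = comb W (fun i' => M i' i) b) ∧
    M.charpoly = P.map (algebraMap ℚ W.K)

/-- The form on the piece given by the projection `c` has the rational Gram matrix `G` in a suitable
basis, and the characteristic polynomial of `f^*` on the piece is `P`. -/
def Realizes (X : 𝒱.Obj) (D : X.Cycles) (f : X ⟶ X) (j : ℕ) (c : (X.prod X).Cycles) {d : ℕ}
    (G : Matrix (Fin d) (Fin d) ℚ) (P : Polynomial ℚ) : Prop :=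
  IsProj W X D f j c ∧ ∃ b : Fin d → W.H X, Spans W X D j c b ∧ FrobeniusPoly W f b P ∧
    ∀ i i', form W X D j (b i) (b i') = (G i i' : W.K)

/-- There are `r - 1` orthogonal algebraic classes on the piece given by `c` for which the sign is as
predicted by the Hodge-Riemann relations (for example classes that lift to characteristic zero). This
is no condition if `r ≤ 1`. -/
def HasPositive (X : 𝒱.Obj) (D : X.Cycles) (j : ℕ) (c : (X.prod X).Cycles) (r : ℕ) : Prop :=
  ∃ z : Fin (r - 1) → X.Cycles,
    (∀ i, X.IsCyc j (z i) ∧ IsPrim W X D j (W.cl X (z i)) ∧ act W c (W.cl X (z i)) = W.cl X (z i)) ∧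
    (∀ i i', i ≠ i' → pairing ops X D j (z i) (z i') = 0) ∧
    ∀ i, 0 < (-1 : ℚ) ^ j * pairing ops X D j (z i) (z i)

end

/-- A piece of the primitive cohomology of degree `2 j` of the polarized variety `(X, D)`, cut out by an
algebraic correspondence, that lifts to characteristic zero: the form on the piece has the same rational
Gram matrix (that of the Betti cohomology of the lifting) for all `ℓ ≠ p`, with the signs of the
Hodge-Riemann relations, and the characteristic polynomial of the Frobenius endomorphism on the piece is
`(X - q ^ j) ^ mult * rest`, where the complex roots of `rest` have the absolute value `q ^ j` and are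
not the products of `q ^ j` and a root of unity. So `mult` is the number of the Frobenius eigenvalues of
Tate type on the piece. -/
structure Piece {p : ℕ} (S : LadicSystem.{u, v} ops p) (X : 𝒱.Obj) (D : X.Cycles) (f : X ⟶ X)
    (q j : ℕ) where
  /-- the algebraic correspondence -/
  corr : (X.prod X).Cycles
  /-- the rank of the piece -/
  rank : ℕ
  /-- the Gram matrix of the piece -/
  gram : Matrix (Fin rank) (Fin rank) ℚ
  /-- the multiplicity of the Frobenius eigenvalue `q ^ j` -/
  mult : ℕ
  /-- the other factor of the characteristic polynomial -/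
  rest : Polynomial ℚ
  isCyc : (X.prod X).IsCyc X.dim corr
  signs : HasHodgeSigns j gram
  monic : rest.Monic
  weil : IsWeilPoly ((q : ℚ) ^ j) rest
  realizes : ∀ l : Nat.Primes, (l : ℕ) ≠ p → Realizes (S.W l) X D f j corr gram
    ((Polynomial.X - Polynomial.C ((q : ℚ) ^ j)) ^ mult * rest)

/-- A decomposition of the primitive cohomology of degree `2 j` of the polarized variety `(X, D)` into
orthogonal pieces that lift to characteristic zero. -/
structure Splitting {p : ℕ} (S : LadicSystem.{u, v} ops p) (X : 𝒱.Obj) (D : X.Cycles) (f : X ⟶ X)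
    (q j : ℕ) where
  /-- the number of pieces -/
  num : ℕ
  /-- the pieces -/
  piece : Fin num → Piece S X D f q j
  sum : ∀ l : Nat.Primes, (l : ℕ) ≠ p → ∀ a, IsPrim (S.W l) X D j a →
    ∑ i, act (S.W l) (piece i).corr a = a
  orth : ∀ l : Nat.Primes, (l : ℕ) ≠ p → ∀ a, IsPrim (S.W l) X D j a → ∀ i i', i ≠ i' →
    act (S.W l) (piece i).corr (act (S.W l) (piece i').corr a) = 0

end Pool.Agent.H934.Lift
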