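import Pool.Agent.H934.PA.Poly

/-!
# The discriminant and invariant subspaces
-/

open Matrix Polynomial Module

namespace Pool.Agent.H934.PA

variable {K : Type*} [Field K] [CharZero K] {U : Type*} [AddCommGroup U] [Module K U]
  [FiniteDimensional K U]

omit [CharZero K] in
/-- The characteristic polynomial on the generalized eigenspace. -/
lemma charpoly_maxGen (F : Module.End K U) (lam : K)
    (hE : ∀ y ∈ F.maxGenEigenspace lam, F y ∈ F.maxGenEigenspace lam) :
    (F.restrict hE).charpoly = (X - C lam) ^ finrank K (F.maxGenEigenspace lam) := by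
  set E := F.maxGenEigenspace lam
  set FE : Module.End K E := F.restrict hE with hFE
  have hpow : ∀ (n : ℕ) (x : E), (((FE - lam • 1) ^ n) x : U) = ((F - lam • 1) ^ n) (x : U) := by
    intro n
    induction n with
    | zero => intro x; rfl
    | succ n ih =>
      intro x
      rw [pow_succ, pow_succ, Module.End.mul_apply, Module.End.mul_apply, ih]
      rfl
  have h1 : (FE - lam • 1).charpoly = X ^ finrank K E := by
    rw [LinearMap.charpoly_eq_X_pow_iff]
    intro x
    obtain ⟨n, hn⟩ := (Module.End.mem_maxGenEigenspace F lam x).1 x.2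
    refine ⟨n, ?_⟩
    apply Subtype.ext
    rw [hpow, hn]
    rfl
  rw [LinearMap.charpoly_sub_smul] at h1
  have h2 := congrArg (fun P : K[X] => P.comp (X - C lam)) h1
  simp only [comp_assoc, add_comp, X_comp, C_comp, sub_add_cancel, comp_X, pow_comp] at h2
  exact h2

/-- **The discriminant of a quadratic space with an isometry (up to a scalar) and a nondegenerate
invariant subspace containing the generalized eigenspace of `lam`.** -/
theorem disc_sub (B : LinearMap.BilinForm K U) (hB : ∀ x y, B x y = B y x) (F : Module.End K U)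
    {lam : K} (hlam : lam ≠ 0) (hF : ∀ x y, B (F x) (F y) = lam ^ 2 * B x y) (E : Submodule K U)
    (hE : ∀ y ∈ E, F y ∈ E) {n d : ℕ} (e : Basis (Fin n) K E)
    (hP : (Matrix.of fun i j => B (e i) (e j)).det ≠ 0)
    (hcE : (F.restrict hE).charpoly = (X - C lam) ^ n) {g : K[X]}
    (hchar : F.charpoly = (X - C lam) ^ n * g)
    (h1 : g.eval lam ≠ 0) (h2 : g.eval (-lam) ≠ 0) (b : Basis (Fin d) K U)
    {G : Matrix (Fin d) (Fin d) K} (hG : ∀ i j, G i j = B (b i) (b j)) (hdet : G.det ≠ 0) :
    (∃ t, Even t ∧ d = n + t) ∧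
      IsSquare (G.det * (Matrix.of fun i j => B (e i) (e j)).det *
        (g.eval lam * g.eval (-lam))) := by
  classical
  set P : Matrix (Fin n) (Fin n) K := Matrix.of fun i j => B (e i) (e j) with hPdef
  -- the orthogonal complement
  let T : Submodule K U := B.orthogonal E
  have hT : ∀ y, y ∈ T ↔ ∀ x ∈ E, B x y = 0 := fun y => by
    rw [LinearMap.BilinForm.mem_orthogonal_iff]
  have hrefl : B.IsRefl := fun x y h => by rw [hB]; exact h
  have hnd : (B.restrict E).Nondegenerate := by
    apply LinearMap.BilinForm.nondegenerate_of_det_ne_zero _ e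
    have : LinearMap.BilinForm.toMatrix e (B.restrict E) = P := by
      ext i j
      rw [LinearMap.BilinForm.toMatrix_apply]
      rfl
    rw [this]
    exact hP
  have hcompl : IsCompl E T :=
    LinearMap.BilinForm.isCompl_orthogonal_of_restrict_nondegenerate hrefl hnd
  let eq : (E × T) ≃ₗ[K] U := Submodule.prodEquivOfIsCompl E T hcompl
  have heq : ∀ x y, eq (x, y) = (x : U) + (y : U) := fun x y => by
    simp [eq]
  -- the isometry
  have hinjE : ∀ y ∈ E, F y = 0 → y = 0 := by
    intro y hy h0
    have h3 : ∀ x : E, (B.restrict E) ⟨y, hy⟩ x = 0 := by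
      intro x
      have h4 := hF y x
      rw [h0, map_zero, LinearMap.zero_apply] at h4
      exact (mul_eq_zero.1 h4.symm).resolve_left (pow_ne_zero 2 hlam)
    have h5 := hnd.1 ⟨y, hy⟩ h3
    exact congrArg Subtype.val h5
  have hsurjE : ∀ x ∈ E, ∃ y ∈ E, F y = x := by
    have hinj : Function.Injective (F.restrict hE) := by
      rw [injective_iff_map_eq_zero]
      intro y hy
      apply Subtype.ext
      exact hinjE y y.2 (congrArg Subtype.val hy)
    have hsurj := LinearMap.surjective_of_injective hinj
    intro x hx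
    obtain ⟨y, hy⟩ := hsurj ⟨x, hx⟩
    exact ⟨y, y.2, congrArg Subtype.val hy⟩
  have hFT : ∀ y ∈ T, F y ∈ T := by
    intro y hy
    rw [hT] at hy ⊢
    intro x hx
    obtain ⟨x', hx', rfl⟩ := hsurjE x hx
    rw [hF, hy x' hx', mul_zero]
  let FT : Module.End K T := F.restrict hFT
  have hconj : eq.conj ((F.restrict hE).prodMap FT) = F := by
    apply LinearMap.ext
    intro z
    obtain ⟨⟨x, y⟩, rfl⟩ := eq.surjective z
    rw [LinearEquiv.conj_apply]
    simp only [LinearMap.comp_apply, LinearEquiv.coe_coe, LinearEquiv.symm_apply_apply,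
      LinearMap.prodMap_apply]
    rw [heq, heq, map_add]
    rfl
  have hchar2 : FT.charpoly = g := by
    have h3 : F.charpoly = (X - C lam) ^ n * FT.charpoly := by
      rw [← hconj, LinearEquiv.charpoly_conj, LinearMap.charpoly_prodMap, hcE]
    rw [h3] at hchar
    exact mul_left_cancel₀ (pow_ne_zero n (X_sub_C_ne_zero lam)) hchar
  -- the bases
  let t := finrank K T
  let bT : Basis (Fin t) K T := finBasis K T
  let c0 : Basis (Fin n ⊕ Fin t) K U := (e.prod bT).map eq
  have hc0l : ∀ i, c0 (Sum.inl i) = (e i : U) := by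
    intro i
    simp only [c0, Basis.map_apply, Basis.prod_apply, Sum.elim_inl]
    change eq (e i, 0) = _
    rw [heq, Submodule.coe_zero, add_zero]
  have hc0r : ∀ k, c0 (Sum.inr k) = (bT k : U) := by
    intro k
    simp only [c0, Basis.map_apply, Basis.prod_apply, Sum.elim_inr]
    change eq (0, bT k) = _
    rw [heq, Submodule.coe_zero, zero_add]
  let e' : Fin n ⊕ Fin t ≃ Fin d := c0.indexEquiv b
  let c : Basis (Fin d) K U := c0.reindex e'
  -- the Gram matrices
  let GT : Matrix (Fin t) (Fin t) K := Matrix.of fun i j => B (bT i) (bT j)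
  let MT : Matrix (Fin t) (Fin t) K := LinearMap.toMatrix bT bT FT
  have hMT : MT.charpoly = g := by
    rw [← hchar2]
    exact LinearMap.charpoly_toMatrix FT bT
  let Gc : Matrix (Fin d) (Fin d) K := Matrix.of fun i j => B (c i) (c j)
  have hGcdet : Gc.det = P.det * GT.det := by
    have h3 : Gc = (Matrix.fromBlocks P 0 0 GT).submatrix e'.symm e'.symm := by
      ext i j
      rw [submatrix_apply]
      change B (c i) (c j) = _
      have h5 : ∀ i, c i = c0 (e'.symm i) := fun i => by simp [c, Basis.reindex_apply]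
      rw [h5, h5]
      rcases e'.symm i with i | i <;> rcases e'.symm j with j | j
      · rw [hc0l, hc0l, fromBlocks_apply₁₁]
        rfl
      · rw [hc0l, hc0r, fromBlocks_apply₁₂]
        exact (hT _).1 (bT j).2 _ (e i).2
      · rw [hc0l, hc0r, fromBlocks_apply₂₁, hB]
        exact (hT _).1 (bT i).2 _ (e j).2
      · rw [hc0r, hc0r, fromBlocks_apply₂₂]
        rfl
    rw [h3, det_submatrix_equiv_self, det_fromBlocks_zero₂₁]
  have hbc : Gc.det = (b.toMatrix c).det ^ 2 * G.det := by
    have h3 : (b.toMatrix c)ᵀ * G * b.toMatrix c = Gc := by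
      have h4 := LinearMap.BilinForm.toMatrix_mul_basis_toMatrix b c B
      have h5 : LinearMap.BilinForm.toMatrix b B = G := by
        ext i j
        rw [LinearMap.BilinForm.toMatrix_apply, hG]
      have h6 : LinearMap.BilinForm.toMatrix c B = Gc := by
        ext i j
        rw [LinearMap.BilinForm.toMatrix_apply]
        rfl
      rw [h5, h6] at h4
      exact h4
    rw [← h3, det_mul, det_mul, det_transpose]
    ring
  have hPne : (b.toMatrix c).det ≠ 0 := by
    have := congrArg det (b.toMatrix_mul_toMatrix_flip c)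
    rw [det_mul, det_one] at this
    exact left_ne_zero_of_mul_eq_one this
  have hGT : GT.det ≠ 0 := by
    intro h0
    rw [hGcdet, h0, mul_zero] at hbc
    exact mul_ne_zero (pow_ne_zero 2 hPne) hdet hbc.symm
  have hiso : MTᵀ * GT * MT = lam ^ 2 • GT := by
    let BT : LinearMap.BilinForm K T := B.restrict T
    have h3 : LinearMap.BilinForm.toMatrix bT BT = GT := by
      ext i j
      rw [LinearMap.BilinForm.toMatrix_apply]
      rfl
    have h4 := LinearMap.BilinForm.toMatrix_comp bT bT BT FT FT
    rw [h3] at h4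
    rw [← h4]
    have h5 : BT.comp FT FT = lam ^ 2 • BT := by
      apply LinearMap.ext₂
      intro a a'
      change B (F a) (F a') = lam ^ 2 • B a a'
      rw [hF, smul_eq_mul]
    rw [h5, map_smul, h3]
  obtain ⟨heven, hfin⟩ := disc_isometry hlam (by
      ext i j
      exact hB _ _) hiso hGT (by rw [hMT]; exact h1) (by rw [hMT]; exact h2)
  refine ⟨⟨t, heven, ?_⟩, ?_⟩
  · have := Fintype.card_congr e'
    rw [Fintype.card_sum, Fintype.card_fin, Fintype.card_fin, Fintype.card_fin] at this
    exact this.symm
  rw [hMT] at hfin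
  obtain ⟨s, hs⟩ := hfin
  refine ⟨(b.toMatrix c).det⁻¹ * P.det * s, ?_⟩
  have h7 : G.det = (b.toMatrix c).det⁻¹ ^ 2 * (P.det * GT.det) := by
    rw [← hGcdet, hbc]
    field_simp
  rw [h7]
  linear_combination ((b.toMatrix c).det⁻¹ ^ 2 * P.det ^ 2) * hs

/-- An isotropic eigenvector is not orthogonal to the generalized eigenspace. -/
lemma exists_not_orth (B : LinearMap.BilinForm K U)
    (hnd : ∀ x, (∀ y, B x y = 0) → x = 0) (F : Module.End K U)
    {lam : K} (hlam : lam ≠ 0) (hF : ∀ x y, B (F x) (F y) = lam ^ 2 * B x y) {r : ℕ}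
    {x : U} (hx : F x = lam • x) (hx0 : x ≠ 0) {g : K[X]}
    (hchar : F.charpoly = (X - C lam) ^ r * g) (h1 : g.eval lam ≠ 0) :
    ∃ w ∈ F.maxGenEigenspace lam, B x w ≠ 0 := by
  by_contra hcon
  push Not at hcon
  apply hx0
  apply hnd
  have hstep : ∀ y, B x (F y) = lam * B x y := by
    intro y
    have h2 := hF x y
    rw [hx, map_smul, LinearMap.smul_apply, smul_eq_mul] at h2
    apply mul_left_cancel₀ hlam
    rw [h2]; ring
  have hpoly : ∀ (P : K[X]) (y : U), B x ((aeval F P) y) = P.eval lam * B x y := by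
    intro P y
    induction P using Polynomial.induction_on with
    | C a => simp [Module.algebraMap_end_apply]
    | add p q hp hq => rw [map_add, LinearMap.add_apply, map_add, hp, hq, eval_add, add_mul]
    | monomial n a ih =>
      rw [pow_succ, ← mul_assoc, mul_comm _ X, map_mul, aeval_X, Module.End.mul_apply, hstep, ih,
        eval_mul (p := X), eval_X]
      ring
  intro y
  have h3 : (aeval F g) y ∈ F.maxGenEigenspace lam := by
    rw [Module.End.mem_maxGenEigenspace]
    refine ⟨r, ?_⟩
    have h4 := LinearMap.aeval_self_charpoly F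
    rw [hchar, map_mul] at h4
    have h5 := congrArg (fun T : Module.End K U => T y) h4
    simp only [Module.End.mul_apply, LinearMap.zero_apply, map_pow, map_sub, aeval_X, aeval_C] at h5
    rw [← h5]
    rfl
  have h6 := hcon _ h3
  rw [hpoly] at h6
  exact (mul_eq_zero.1 h6).resolve_left h1

end Pool.Agent.H934.PA
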