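import Pool.Agent.H934.PA.Bridge2
import Pool.Agent.H934.HS.Basic

/-!
# Varieties with cohomology like that of a hypersurface
-/

open CategoryTheory AlgebraicGeometry Module

universe u v

namespace Pool.Agent.H934.Lift

open Pool.Agent.H914 Pool.Agent.H914.VarClass Pool.Agent.H914.VarClass.Obj
  Pool.Agent.H914.WeilCohomology

variable {k : Type u} [Field k] {𝒱 : VarClass k} {ops : CycleOps 𝒱}

/-- As for hypersurfaces and complete intersections in projective space, with `D` a hyperplane section:
the degree of `D ^ n` is positive, `n = dim X`, and `H ^ (2 i)(X)` is spanned by `D ^ i` if `2 i ≠ n`. -/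
def IsHypersurfaceLike (W : WeilCohomology.{u, v} ops) (X : 𝒱.Obj) (D : X.Cycles) : Prop :=
  0 < X.V.degCycle (divPow ops D X.dim X.V.fundCycle) ∧
    ∀ i, 2 * i ≠ X.dim → ∀ a ∈ W.gr X (2 * i), ∃ t : W.K, a = t • classPow W X D i

/-- For varieties with cohomology like that of a hypersurface the conjecture `A` is trivial. -/
theorem IsHypersurfaceLike.lefschetzA {W : WeilCohomology.{u, v} ops} {X : 𝒱.Obj} {D : X.Cycles}
    (hD : X.IsCyc 1 D) (h : IsHypersurfaceLike W X D) : LefschetzA W X D := by
  obtain ⟨hdeg, hsp⟩ := h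
  intro j hj z hz
  by_cases hn : 2 * j = X.dim
  · refine ⟨z, by rwa [show X.dim - j = j by omega] at hz, ?_⟩
    rw [hn, Nat.sub_self]
    rfl
  · obtain ⟨t, ht⟩ := hsp (X.dim - j) (by omega) (W.cl X z) (W.cl_mem hz)
    set N := X.V.degCycle (divPow ops D X.dim X.V.fundCycle) with hN
    have htop : W.tr X (W.cl X D ^ X.dim) = (N : W.K) := by
      have h1 : X.IsCyc X.dim (divPow ops D X.dim X.V.fundCycle) :=
        HS.isCyc_divPow hD X.V.fundCycle_mem X.dim
      have h2 := W.tr_cl h1
      rw [HS.divPow_cl, W.cl_fund, mul_one] at h2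
      exact h2
    set r := X.V.degCycle (divPow ops D j z) with hr
    have hz2 : W.tr X (W.cl X D ^ j * W.cl X z) = (r : W.K) := by
      have h1 : X.IsCyc (j + (X.dim - j)) (divPow ops D j z) := HS.isCyc_divPow hD hz j
      rw [show j + (X.dim - j) = X.dim by omega] at h1
      have h2 := W.tr_cl h1
      rwa [HS.divPow_cl] at h2
    rw [ht, classPow, mul_smul_comm, ← pow_add, show j + (X.dim - j) = X.dim by omega, map_smul,
      htop, smul_eq_mul] at hz2
    have hN0 : (N : W.K) ≠ 0 := by exact_mod_cast hdeg.ne'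
    refine ⟨(r / N) • divPow ops D j X.V.fundCycle, ?_, ?_⟩
    · have h1 : X.IsCyc (j + 0) (divPow ops D j X.V.fundCycle) :=
        HS.isCyc_divPow hD X.V.fundCycle_mem j
      exact SmVar.IsCyc.smul _ h1
    · rw [HS.divPow_cl, cl_smul, HS.divPow_cl, W.cl_fund, mul_one, ht, classPow, mul_smul_comm,
        ← pow_add, show X.dim - 2 * j + j = X.dim - j by omega]
      congr 1
      rw [Rat.cast_div, div_eq_iff hN0]
      exact hz2.symm

variable {p : ℕ} {S : LadicSystem.{u, v} ops p} {X : 𝒱.Obj} {D : X.Cycles} {f : X ⟶ X} {q : ℕ}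

/-- The conjecture `A`, or cohomology like that of a hypersurface. -/
lemma lefschetzA_of_or {W : WeilCohomology.{u, v} ops} (hD : X.IsCyc 1 D)
    (h : IsHypersurfaceLike W X D ∨ LefschetzA W X D) : LefschetzA W X D :=
  h.elim (fun h => h.lefschetzA hD) id

end Pool.Agent.H934.Lift
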